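import Pool.Agent.EinW.Contr

/-!
# The operator `P f x = ∑ i, f ⁅x, e i⁆` on the four invariants
-/

namespace Pool.Agent.EinW

open Matrix Pool.Agent.EStab Pool.Agent.EinS

attribute [local instance 100] LieRing.ofAssociativeRing

variable {A : Type} [Ring A] [StarRing A] [Algebra ℝ A] [Cen A] [Coef A]
variable {ι : Type} [Fintype ι] [DecidableEq ι]

noncomputable def I1 (z x : cl A ι) : ℝ := rt (z.1 * z.1 * x.1 * x.1)

noncomputable def I2 (z x : cl A ι) : ℝ := rt (z.1 * x.1 * z.1 * x.1)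

noncomputable def I3 (z x : cl A ι) : ℝ := rt (z.1 * x.1) ^ 2

noncomputable def I4 (z x : cl A ι) : ℝ := rt (z.1 * z.1) * rt (x.1 * x.1)

theorem Qf_rt [Nonempty ι] (x y : cl A ι) : Qf (cl A ι) x y = -(lm A ι * rt (x.1 * y.1)) := by
  rw [Qf_lm]
  have h : ip x.1 y.1 = -rt (x.1 * y.1) := by
    unfold ip rt trace
    rw [rl_sum, ← Finset.sum_neg_distrib]
    refine Finset.sum_congr rfl fun i _ => ?_
    rw [Matrix.diag_apply, Matrix.mul_apply, rl_sum, ← Finset.sum_neg_distrib]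
    refine Finset.sum_congr rfl fun j _ => ?_
    have h1 : star (y.1 i j) = -y.1 j i := cl_skew y j i
    rw [h1, mul_neg, rl, map_neg]
  rw [h]
  ring

variable [Nonempty ι] (hl : lm A ι ≠ 0) {J : Type*} [Fintype J] [DecidableEq J]
  {e : J → cl A ι} (he : IsFrame (⊤ : Submodule ℝ (cl A ι)) e) (z x : cl A ι)

include hl he

theorem P_I1 : ∑ i, I1 z ⁅x, e i⁆ = (lm A ι)⁻¹ *
    ((Fintype.card ι * Coef.m A / 2 - 2 * Coef.sg A) * I1 z x + Coef.m A / 2 * I4 z x) := by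
  have h := con_frame hl he (z.1 * z.1) 1 x.1
  have hz := z.2.1
  have hx := x.2.1
  have h0 : ∀ i, I1 z ⁅x, e i⁆ = rt (z.1 * z.1 * (x.1 * (e i).1 - (e i).1 * x.1) * 1 *
      (x.1 * (e i).1 - (e i).1 * x.1)) := by
    intro i
    unfold I1
    rw [cl_lie, Matrix.mul_one]
  rw [Finset.sum_congr rfl fun i _ => h0 i, h]
  have e1 : rt (z.1 * z.1 * x.1 * (1 * x.1)ᴴ) = -I1 z x := by
    unfold I1
    rw [Matrix.one_mul, hx, Matrix.mul_neg, rt_neg]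
  have e2 : rt (x.1 * (z.1 * z.1) * x.1 * (1 : Matrix ι ι A)ᴴ) = I1 z x := by
    unfold I1
    rw [Matrix.conjTranspose_one, Matrix.mul_one, Matrix.mul_assoc x.1, rt_comm x.1]
  have e3 : rt (z.1 * z.1 * (x.1 * 1 * x.1)ᴴ) = I1 z x := by
    unfold I1
    rw [Matrix.mul_one, Matrix.conjTranspose_mul, hx, neg_mul_neg, ← Matrix.mul_assoc]
  have e4 : rt (x.1 * (z.1 * z.1) * (x.1 * 1)ᴴ) = -I1 z x := by
    unfold I1
    rw [Matrix.mul_one, hx, Matrix.mul_neg, rt_neg, Matrix.mul_assoc x.1, rt_comm x.1]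
  have c1 : cp (z.1 * z.1 * x.1) (1 * x.1) = 0 := by
    rw [Matrix.one_mul, cp_comm]
    exact cp_zero (cl_tr x) _
  have c2 : cp (x.1 * (z.1 * z.1) * x.1) 1 = Fintype.card ι * I1 z x := by
    rw [cp_one]
    unfold I1
    rw [Matrix.mul_assoc x.1, rt_comm x.1]
  have c3 : cp (z.1 * z.1) (x.1 * 1 * x.1) = I4 z x := by
    unfold I4
    rw [Matrix.mul_one, cp_herm]
    rw [Matrix.conjTranspose_mul, hz, neg_mul_neg]
  have c4 : cp (x.1 * (z.1 * z.1)) (x.1 * 1) = 0 := by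
    rw [Matrix.mul_one, cp_comm]
    exact cp_zero (cl_tr x) _
  rw [e1, e2, e3, e4, c1, c2, c3, c4]
  ring

theorem P_I2 : ∑ i, I2 z ⁅x, e i⁆ = (lm A ι)⁻¹ *
    (Coef.sg A * I1 z x + Coef.sg A * I2 z x - Coef.m A * I3 z x) := by
  have h := con_frame hl he z.1 z.1 x.1
  have hz := z.2.1
  have hx := x.2.1
  have h0 : ∀ i, I2 z ⁅x, e i⁆ = rt (z.1 * (x.1 * (e i).1 - (e i).1 * x.1) * z.1 *
      (x.1 * (e i).1 - (e i).1 * x.1)) := by
    intro i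
    unfold I2
    rw [cl_lie]
  rw [Finset.sum_congr rfl fun i _ => h0 i, h]
  have e1 : rt (z.1 * x.1 * (z.1 * x.1)ᴴ) = I1 z x := by
    unfold I1
    rw [Matrix.conjTranspose_mul, hx, hz, neg_mul_neg, rt_comm (z.1 * z.1 * x.1) x.1,
      rt_comm (z.1 * x.1)]
    congr 1
    noncomm_ring
  have e2 : rt (x.1 * z.1 * x.1 * z.1ᴴ) = -I2 z x := by
    unfold I2
    rw [hz, Matrix.mul_neg, rt_neg, rt_comm (x.1 * z.1 * x.1)]
    congr 2
    noncomm_ring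
  have e3 : rt (z.1 * (x.1 * z.1 * x.1)ᴴ) = -I2 z x := by
    unfold I2
    rw [Matrix.conjTranspose_mul, Matrix.conjTranspose_mul, hx, hz, ← rt_neg]
    congr 1
    noncomm_ring
  have e4 : rt (x.1 * z.1 * (x.1 * z.1)ᴴ) = I1 z x := by
    unfold I1
    rw [Matrix.conjTranspose_mul, hx, hz, neg_mul_neg, rt_comm (z.1 * z.1 * x.1) x.1]
    congr 1
    noncomm_ring
  have hr : star (ce (trace (z.1 * x.1))) = ce (trace (z.1 * x.1)) := by
    rw [star_ce, ← trace_conjT, Matrix.conjTranspose_mul, hx, hz, neg_mul_neg, ce_trace_comm]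
  have hr' : star (ce (trace (x.1 * z.1))) = ce (trace (x.1 * z.1)) := by
    rw [star_ce, ← trace_conjT, Matrix.conjTranspose_mul, hx, hz, neg_mul_neg, ce_trace_comm]
  have c1 : cp (z.1 * x.1) (z.1 * x.1) = I3 z x := by
    unfold I3
    rw [cp_real hr, sq]
  have c2 : cp (x.1 * z.1 * x.1) z.1 = 0 := by
    rw [cp_comm]
    exact cp_zero (cl_tr z) _
  have c3 : cp z.1 (x.1 * z.1 * x.1) = 0 := cp_zero (cl_tr z) _
  have c4 : cp (x.1 * z.1) (x.1 * z.1) = I3 z x := by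
    unfold I3
    rw [cp_real hr', sq, rt_comm x.1]
  rw [e1, e2, e3, e4, c1, c2, c3, c4]
  ring

theorem P_I3 : ∑ i, I3 z ⁅x, e i⁆ = (lm A ι)⁻¹ * (2 * I1 z x - 2 * I2 z x) := by
  have h1 : ∀ i, I3 z ⁅x, e i⁆ = ((lm A ι)⁻¹) ^ 2 *
      (Qf (cl A ι) ⁅z, x⁆ (e i) * Qf (cl A ι) ⁅z, x⁆ (e i)) := by
    intro i
    unfold I3
    have h2 : rt (z.1 * (⁅x, e i⁆ : cl A ι).1) = -((lm A ι)⁻¹ * Qf (cl A ι) ⁅z, x⁆ (e i)) := by
      rw [Qf_lie, Qf_rt, mul_neg, ← mul_assoc, inv_mul_cancel₀ hl]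
      ring
    rw [h2]
    ring
  rw [Finset.sum_congr rfl fun i _ => h1 i, ← Finset.mul_sum,
    ← he.parseval Submodule.mem_top ⁅z, x⁆, Qf_rt, cl_lie]
  have h3 : rt ((z.1 * x.1 - x.1 * z.1) * (z.1 * x.1 - x.1 * z.1)) = 2 * I2 z x - 2 * I1 z x := by
    have e1 : (z.1 * x.1 - x.1 * z.1) * (z.1 * x.1 - x.1 * z.1) =
        z.1 * x.1 * z.1 * x.1 - z.1 * (x.1 * x.1 * z.1) - x.1 * (z.1 * z.1 * x.1) +
          x.1 * (z.1 * x.1 * z.1) := by
      noncomm_ring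
    rw [e1, rt_add, rt_sub, rt_sub, rt_comm z.1, rt_comm x.1, rt_comm x.1]
    have e2 : rt (x.1 * x.1 * z.1 * z.1) = I1 z x := by
      unfold I1
      rw [Matrix.mul_assoc (x.1 * x.1), rt_comm]
      congr 1
      noncomm_ring
    rw [e2]
    unfold I1 I2
    ring
  rw [h3]
  field_simp
  ring

theorem P_I4 : ∑ i, I4 z ⁅x, e i⁆ = I4 z x := by
  have h1 : ∀ w : cl A ι, rt (w.1 * w.1) = -((lm A ι)⁻¹ * Qf (cl A ι) w w) := by
    intro w
    rw [Qf_rt, mul_neg, ← mul_assoc, inv_mul_cancel₀ hl]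
    ring
  unfold I4
  simp only [h1]
  rw [he.killing x x, Finset.mul_sum, ← Finset.sum_neg_distrib, Finset.mul_sum]

end Pool.Agent.EinW
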