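import Pool.Agent.EinW.Defs
import Pool.Agent.EinW.PI

/-!
# The annihilating polynomial of `Φ` for `so(N)`, `su(N)`, `sp(N)`
-/

namespace Pool.Agent.EinW

open Matrix Pool.Agent.EStab Pool.Agent.EinS Pool.Agent.SmIso Pool.Agent.EinU Pool.Agent.EinG

section Form

variable {L : Type*} [LieRing L] [LieAlgebra ℝ L] {J : Type*} [Fintype J] [DecidableEq J]

/-- The quadratic form of a matrix. -/
noncomputable def fm (e : J → L) (α : Matrix J J ℝ) (x : L) : ℝ := co e x ⬝ᵥ (α *ᵥ co e x)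

theorem fm_Phi {e : J → L} (he : IsFrame (⊤ : Submodule ℝ L) e) (α : Matrix J J ℝ) (x : L) :
    fm e (Phi (CF e) α) x = ∑ i, fm e α ⁅x, e i⁆ := by
  have hx : ∑ i, co e x i • e i = x := (he.exp x Submodule.mem_top).symm
  have h1 : ∀ i, fm e α ⁅x, e i⁆ = (lc (CF e) (co e x) * α * (lc (CF e) (co e x))ᵀ) i i := by
    intro i
    refine quad_row _ α i _ fun z => ?_
    rw [lc_CF, hx]
    rfl
  rw [Finset.sum_congr rfl fun i _ => h1 i]
  change co e x ⬝ᵥ (UU (CF e) α 1 *ᵥ co e x) = _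
  rw [UU_quad, Matrix.one_mul]
  rfl

theorem fm_stp {e : J → L} (he : IsFrame (⊤ : Submodule ℝ L) e) (t : ℝ) (α : Matrix J J ℝ)
    (x : L) : fm e (stp (Phi (CF e)) t α) x = ∑ i, fm e α ⁅x, e i⁆ - t * fm e α x := by
  rw [← fm_Phi he]
  unfold fm stp
  rw [Matrix.sub_mulVec, dotProduct_sub, Matrix.smul_mulVec, dotProduct_smul, smul_eq_mul]

open scoped Matrix.Norms.L2Operator in
theorem eq_zero_of_fm {e : J → L} (he : IsFrame (⊤ : Submodule ℝ L) e) {α : Matrix J J ℝ}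
    (hα : α.IsSymm) (h : ∀ x, fm e α x = 0) : α = 0 := by
  have h1 : ‖α‖ ≤ 0 := by
    refine norm_le_of_quad hα le_rfl fun v => ?_
    have h2 := h (∑ i, v i • e i)
    unfold fm at h2
    rw [co_comb he v] at h2
    rw [h2, abs_zero, zero_mul]
  exact norm_le_zero_iff.mp h1

theorem stp_symm (e : J → L) (t : ℝ) {α : Matrix J J ℝ} (hα : α.IsSymm) :
    (stp (Phi (CF e)) t α).IsSymm :=
  (UU_symm (CF e) hα Matrix.isSymm_one).sub (hα.smul t)

theorem fm_vec {e : J → L} (he : IsFrame (⊤ : Submodule ℝ L) e) (v : J → ℝ) (x : L) :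
    fm e (Matrix.vecMulVec v v) x = Qf L (∑ i, v i • e i) x ^ 2 := by
  have h1 : Qf L (∑ i, v i • e i) x = v ⬝ᵥ co e x := by
    have h2 := he.parseval (x := ∑ i, v i • e i) Submodule.mem_top x
    rw [h2]
    have h3 := co_comb he v
    refine Finset.sum_congr rfl fun i _ => ?_
    have h4 : Qf L (∑ i, v i • e i) (e i) = v i := congrFun h3 i
    rw [h4]
    rfl
  rw [h1]
  unfold fm
  rw [Matrix.vecMulVec_mulVec]
  simp only [dotProduct_smul, dotProduct_comm (co e x) v, MulOpposite.smul_eq_mul_unop,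
    MulOpposite.unop_op]
  ring

end Form

section Span

variable {J : Type*} [Fintype J] [DecidableEq J]

/-- Polarisation. -/
noncomputable def pv (i j : J) : Matrix J J ℝ :=
  Matrix.vecMulVec (Pi.single i 1 + Pi.single j 1) (Pi.single i 1 + Pi.single j 1) -
    Matrix.vecMulVec (Pi.single i 1 - Pi.single j 1) (Pi.single i 1 - Pi.single j 1)

theorem symm_sum {α : Matrix J J ℝ} (hα : α.IsSymm) : α = ∑ i, ∑ j, (α i j / 4) • pv i j := by
  ext k l
  have h1 : ∀ i j : J, ((α i j / 4) • pv i j) k l =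
      α i j / 2 * ((if k = i then 1 else 0) * (if l = j then 1 else 0)) +
      α i j / 2 * ((if k = j then 1 else 0) * (if l = i then 1 else 0)) := by
    intro i j
    unfold pv
    rw [Matrix.smul_apply, Matrix.sub_apply, Matrix.vecMulVec_apply, Matrix.vecMulVec_apply,
      Pi.add_apply, Pi.add_apply, Pi.sub_apply, Pi.sub_apply, Pi.single_apply, Pi.single_apply,
      Pi.single_apply, Pi.single_apply, smul_eq_mul]
    ring
  have h2 : (∑ i, ∑ j, (α i j / 4) • pv i j) k l =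
      ∑ i, ∑ j, (α i j / 2 * ((if k = i then 1 else 0) * (if l = j then 1 else 0)) +
      α i j / 2 * ((if k = j then 1 else 0) * (if l = i then 1 else 0))) := by
    rw [Matrix.sum_apply]
    refine Finset.sum_congr rfl fun i _ => ?_
    rw [Matrix.sum_apply]
    exact Finset.sum_congr rfl fun j _ => h1 i j
  rw [h2]
  simp only [Finset.sum_add_distrib]
  have h3 : ∑ i, ∑ j, α i j / 2 * ((if k = i then (1 : ℝ) else 0) * (if l = j then 1 else 0)) =
      α k l / 2 := by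
    rw [Finset.sum_eq_single k, Finset.sum_eq_single l]
    · rw [if_pos rfl, if_pos rfl]
      ring
    · intro j _ hj
      rw [if_neg (Ne.symm hj)]
      ring
    · intro h
      exact absurd (Finset.mem_univ _) h
    · intro i _ hi
      refine Finset.sum_eq_zero fun j _ => ?_
      rw [if_neg (Ne.symm hi)]
      ring
    · intro h
      exact absurd (Finset.mem_univ _) h
  have h4 : ∑ i, ∑ j, α i j / 2 * ((if k = j then (1 : ℝ) else 0) * (if l = i then 1 else 0)) =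
      α l k / 2 := by
    rw [Finset.sum_eq_single l, Finset.sum_eq_single k]
    · rw [if_pos rfl, if_pos rfl]
      ring
    · intro j _ hj
      rw [if_neg (Ne.symm hj)]
      ring
    · intro h
      exact absurd (Finset.mem_univ _) h
    · intro i _ hi
      refine Finset.sum_eq_zero fun j _ => ?_
      rw [if_neg (Ne.symm hi)]
      ring
    · intro h
      exact absurd (Finset.mem_univ _) h
  rw [h3, h4, hα.apply k l]
  ring

/-- The operator `Φ - t` as a linear map. -/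
noncomputable def stpL {V : Type*} [AddCommGroup V] [Module ℝ V] (Φ : V →ₗ[ℝ] V) (t : ℝ) :
    V →ₗ[ℝ] V := Φ - t • LinearMap.id

theorem stpL_apply {V : Type*} [AddCommGroup V] [Module ℝ V] (Φ : V →ₗ[ℝ] V) (t : ℝ) (v : V) :
    stpL Φ t v = stp Φ t v := rfl

theorem ann_of_vec (Φ : Matrix J J ℝ →ₗ[ℝ] Matrix J J ℝ) (t : Fin 4 → ℝ)
    (h : ∀ v : J → ℝ, Ann4 Φ t (Matrix.vecMulVec v v)) {α : Matrix J J ℝ} (hα : α.IsSymm) :
    Ann4 Φ t α := by
  let N : Matrix J J ℝ →ₗ[ℝ] Matrix J J ℝ :=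
    stpL Φ (t 0) ∘ₗ stpL Φ (t 1) ∘ₗ stpL Φ (t 2) ∘ₗ stpL Φ (t 3)
  have hN : ∀ v : J → ℝ, N (Matrix.vecMulVec v v) = 0 := h
  change N α = 0
  rw [symm_sum hα, map_sum]
  refine Finset.sum_eq_zero fun i _ => ?_
  rw [map_sum]
  refine Finset.sum_eq_zero fun j _ => ?_
  unfold pv
  rw [map_smul, map_sub, hN, hN, sub_zero, smul_zero]

end Span

section Cl

variable {A : Type} [Ring A] [StarRing A] [Algebra ℝ A] [Cen A] [Coef A]
variable {ι : Type} [Fintype ι] [DecidableEq ι] [Nonempty ι]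

theorem fm_step (hl : lm A ι ≠ 0) {J : Type*} [Fintype J] [DecidableEq J]
    {e : J → cl A ι} (he : IsFrame (⊤ : Submodule ℝ (cl A ι)) e) (z : cl A ι) (t : ℝ)
    {α : Matrix J J ℝ} {a b c d : ℝ}
    (h : ∀ x, fm e α x = a * I1 z x + b * I2 z x + c * I3 z x + d * I4 z x) (x : cl A ι) :
    fm e (stp (Phi (CF e)) t α) x =
      ((lm A ι)⁻¹ * ((Fintype.card ι * Coef.m A / 2 - 2 * Coef.sg A) * a + Coef.sg A * b + 2 * c) -
        t * a) * I1 z x +
      ((lm A ι)⁻¹ * (Coef.sg A * b - 2 * c) - t * b) * I2 z x +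
      ((lm A ι)⁻¹ * (-(Coef.m A * b)) - t * c) * I3 z x +
      ((lm A ι)⁻¹ * (Coef.m A / 2 * a) + d - t * d) * I4 z x := by
  rw [fm_stp he, h x, Finset.sum_congr rfl fun i _ => h ⁅x, e i⁆, Finset.sum_add_distrib,
    Finset.sum_add_distrib, Finset.sum_add_distrib, ← Finset.mul_sum, ← Finset.mul_sum,
    ← Finset.mul_sum, ← Finset.mul_sum, P_I1 hl he, P_I2 hl he, P_I3 hl he, P_I4 hl he]
  ring

/-- The annihilating polynomial. -/
theorem ann_cl (hl : lm A ι ≠ 0) (hs : (Coef.sg A : ℝ) = 2 - Coef.m A) {n : ℕ}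
    {e : Fin n → cl A ι} (he : IsFrame (⊤ : Submodule ℝ (cl A ι)) e)
    {α : Matrix (Fin n) (Fin n) ℝ} (hα : α.IsSymm) :
    Ann4 (Phi (CF e)) ![1, 1 / 2 - Coef.sg A / lm A ι, 2 / lm A ι, -(Coef.m A / lm A ι)] α := by
  refine ann_of_vec _ _ (fun v => ?_) hα
  have hv : (Matrix.vecMulVec v v).IsSymm := by
    ext i j
    rw [Matrix.transpose_apply, Matrix.vecMulVec_apply, Matrix.vecMulVec_apply, mul_comm]
  obtain ⟨z, hz⟩ : ∃ z, z = ∑ i, v i • e i := ⟨_, rfl⟩
  have h0 : ∀ x, fm e (Matrix.vecMulVec v v) x =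
      0 * I1 z x + 0 * I2 z x + lm A ι ^ 2 * I3 z x + 0 * I4 z x := by
    intro x
    rw [fm_vec he, ← hz, Qf_rt]
    unfold I3
    ring
  have hm : (Coef.m A : ℝ) = 2 - Coef.sg A := by rw [hs]; ring
  have hN : (Fintype.card ι : ℝ) * Coef.m A = lm A ι + 2 * Coef.sg A := by
    unfold lm
    ring
  have h1 := fm_step hl he z (-(Coef.m A / lm A ι)) h0
  have h2 := fm_step hl he z (2 / lm A ι) h1
  have h3 := fm_step hl he z (1 / 2 - Coef.sg A / lm A ι) h2
  have h4 := fm_step hl he z 1 h3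
  refine eq_zero_of_fm he (stp_symm e _ (stp_symm e _ (stp_symm e _ (stp_symm e _ hv)))) fun x => ?_
  refine (h4 x).trans ?_
  rw [hN, hm]
  generalize lm A ι = l at hl ⊢
  generalize (Coef.sg A : ℝ) = s
  generalize I1 z x = i1
  generalize I2 z x = i2
  generalize I3 z x = i3
  generalize I4 z x = i4
  field_simp
  ring

theorem annM_cl (hl : lm A ι ≠ 0) (hs : (Coef.sg A : ℝ) = 2 - Coef.m A) :
    AnnM (cl A ι) ![1, 1 / 2 - Coef.sg A / lm A ι, 2 / lm A ι, -(Coef.m A / lm A ι)] :=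
  fun _ _ he _ hα => ann_cl hl hs he hα

end Cl

end Pool.Agent.EinW
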