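import Pool.Agent.EinW.Res

/-!
# The determinant at the eigenvalues of the classical Lie algebras, two or three factors
-/

namespace Pool.Agent.EinW

private theorem Res2_low {q : ℕ} (hq : 2 ≤ q) {t : ℝ} (ht : t ≤ 1 / 2) : 1 / 625 ≤ |Dq q t| := by
  have hq' : (2 : ℝ) ≤ q := by exact_mod_cast hq
  refine le_trans ?_ (le_abs_self _)
  have h1 : Dq q t = (2 * (q : ℝ) - 2) + (1 / 2 - t) * ((16 * (q : ℝ) ^ 2 + 50 * q + 38) -
      (12 * (q : ℝ) ^ 2 + 36 * q + 32) * (t + 1 / 2)) := by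
    unfold Dq
    ring
  have h2 : 0 ≤ (16 * (q : ℝ) ^ 2 + 50 * q + 38) - (12 * (q : ℝ) ^ 2 + 36 * q + 32) * (t + 1 / 2) := by
    have h3 : (12 * (q : ℝ) ^ 2 + 36 * q + 32) * (t + 1 / 2) ≤ (12 * (q : ℝ) ^ 2 + 36 * q + 32) * 1 := by
      gcongr
      linarith
    nlinarith
  rw [h1]
  have h4 := mul_nonneg (show (0 : ℝ) ≤ 1 / 2 - t by linarith) h2
  linarith

private theorem Res2_ne {q : ℕ} (h2 : 2 ≤ q) (h3 : q ≤ 3) {M : ℕ} (hM : M < 25) :
    2 * ((q : ℤ) - 1) * (M : ℤ) ^ 2 - (2 * q + 1) * (q + 3) * M + (3 * q ^ 2 + 9 * q + 8) ≠ 0 := by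
  interval_cases q <;> interval_cases M <;> norm_num

private theorem Res2_high {q M : ℕ} (h2 : 2 ≤ q) (h3 : q ≤ 3) (hM : 1 ≤ M) :
    1 / 625 ≤ |Dq q (1 / 2 + 1 / (2 * (M : ℝ)))| := by
  have hM' : (1 : ℝ) ≤ M := by exact_mod_cast hM
  have hMp : (0 : ℝ) < M := by linarith
  have h0 : Dq q (1 / 2 + 1 / (2 * (M : ℝ))) =
      (2 * ((q : ℝ) - 1) * M ^ 2 - (2 * q + 1) * (q + 3) * M + (3 * q ^ 2 + 9 * q + 8)) / M ^ 2 := by
    unfold Dq
    field_simp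
    ring
  by_cases hY : 25 ≤ M
  · have hY' : (25 : ℝ) ≤ M := by exact_mod_cast hY
    have h1 : (1 : ℝ) ≤ |Dq q (1 / 2 + 1 / (2 * (M : ℝ)))| := by
      refine le_trans ?_ (le_abs_self _)
      rw [h0, le_div_iff₀ (by positivity)]
      interval_cases q
      · push_cast
        nlinarith
      · push_cast
        nlinarith
    linarith
  · push Not at hY
    have hYr : (M : ℝ) ≤ 25 := by exact_mod_cast hY.le
    have h1 := Res2_ne h2 h3 hY
    have h4 : (1 : ℝ) ≤ |2 * ((q : ℝ) - 1) * M ^ 2 - (2 * q + 1) * (q + 3) * M +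
        (3 * q ^ 2 + 9 * q + 8)| := by
      have h5 := Int.one_le_abs h1
      have h6 : ((1 : ℤ) : ℝ) ≤ ((|2 * ((q : ℤ) - 1) * (M : ℤ) ^ 2 - (2 * (q : ℤ) + 1) * ((q : ℤ) + 3) *
        (M : ℤ) + (3 * (q : ℤ) ^ 2 + 9 * (q : ℤ) + 8)| : ℤ) : ℝ) := by exact_mod_cast h5
      push_cast at h6
      exact h6
    rw [h0, abs_div, abs_of_pos (show (0 : ℝ) < M ^ 2 by positivity)]
    calc (1 : ℝ) / 625 ≤ 1 / (M : ℝ) ^ 2 := by
          apply one_div_le_one_div_of_le (by positivity)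
          nlinarith
      _ ≤ _ := by gcongr

theorem ev_ok2 {q N : ℕ} (h2 : 2 ≤ q) (h3 : q ≤ 3) (hN : 3 ≤ N) {m s : ℝ}
    (h : (m = 1 ∧ s = 1) ∨ (m = 2 ∧ s = 0) ∨ (m = 4 ∧ s = -2)) (i : Fin 4) :
    |ev N m s i| ≤ 2 ∧ 1 / 625 ≤ |Dq q (ev N m s i)| := by
  have hN' : (3 : ℝ) ≤ N := by exact_mod_cast hN
  have hq' : (2 : ℝ) ≤ q := by exact_mod_cast h2
  have low : ∀ t : ℝ, -2 ≤ t → t ≤ 1 / 2 → |t| ≤ 2 ∧ 1 / 625 ≤ |Dq q t| := by
    intro t a1 a2
    exact ⟨abs_le.2 ⟨a1, by linarith⟩, Res2_low h2 a2⟩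
  have hl : 1 ≤ N * m - 2 * s := by
    rcases h with ⟨rfl, rfl⟩ | ⟨rfl, rfl⟩ | ⟨rfl, rfl⟩ <;> linarith
  have hlp : 0 < N * m - 2 * s := by linarith
  have e0 : ev N m s 0 = 1 := rfl
  have e1 : ev N m s 1 = 1 / 2 - s / (N * m - 2 * s) := rfl
  have e2 : ev N m s 2 = 2 / (N * m - 2 * s) := rfl
  have e3 : ev N m s 3 = -(m / (N * m - 2 * s)) := rfl
  have hone : ∀ t : ℝ, 1 ≤ |Dq q t| → 1 / 625 ≤ |Dq q t| := fun t ht => by linarith
  have hD1 : 1 / 625 ≤ |Dq q 1| := by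
    apply hone
    refine le_trans ?_ (le_abs_self _)
    unfold Dq
    nlinarith
  have hD2 : 1 / 625 ≤ |Dq q 2| := by
    apply hone
    refine le_trans ?_ (le_abs_self _)
    unfold Dq
    nlinarith
  have hD3 : 1 / 625 ≤ |Dq q (2 / 3)| := by
    apply hone
    refine le_trans ?_ (neg_le_abs _)
    unfold Dq
    nlinarith
  fin_cases i
  · show |ev N m s 0| ≤ 2 ∧ 1 / 625 ≤ |Dq q (ev N m s 0)|
    rw [e0]
    exact ⟨by norm_num, hD1⟩
  · show |ev N m s 1| ≤ 2 ∧ 1 / 625 ≤ |Dq q (ev N m s 1)|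
    rw [e1]
    rcases h with ⟨rfl, rfl⟩ | ⟨rfl, rfl⟩ | ⟨rfl, rfl⟩
    · apply low
      · have : (1 : ℝ) / (N * 1 - 2 * 1) ≤ 1 := by
          rw [div_le_one hlp]
          linarith
        linarith
      · have : (0 : ℝ) ≤ 1 / (N * 1 - 2 * 1) := by positivity
        linarith
    · apply low
      · norm_num
      · norm_num
    · have h1 : (1 : ℝ) / 2 - -2 / (N * 4 - 2 * -2) = 1 / 2 + 1 / (2 * ((N + 1 : ℕ) : ℝ)) := by
        push_cast
        have h4 : (N : ℝ) + 1 ≠ 0 := by positivity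
        have h3 : (N : ℝ) * 4 - 2 * -2 = 4 * ((N : ℝ) + 1) := by ring
        rw [h3]
        field_simp
        ring
      rw [h1]
      refine ⟨?_, Res2_high h2 h3 (by omega)⟩
      have h2 : (0 : ℝ) ≤ 1 / (2 * ((N + 1 : ℕ) : ℝ)) := by positivity
      have h3 : (1 : ℝ) / (2 * ((N + 1 : ℕ) : ℝ)) ≤ 1 := by
        rw [div_le_one (by positivity)]
        push_cast
        linarith
      rw [abs_le]
      constructor <;> linarith
  · show |ev N m s 2| ≤ 2 ∧ 1 / 625 ≤ |Dq q (ev N m s 2)|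
    rw [e2]
    rcases h with ⟨rfl, rfl⟩ | ⟨rfl, rfl⟩ | ⟨rfl, rfl⟩
    · rcases Nat.lt_or_ge N 6 with h6 | h6
      · have h7 : N = 3 ∨ N = 4 ∨ N = 5 := by omega
        rcases h7 with rfl | rfl | rfl
        · have : (2 : ℝ) / (((3 : ℕ) : ℝ) * 1 - 2 * 1) = 2 := by norm_num
          rw [this]
          exact ⟨by norm_num, hD2⟩
        · have : (2 : ℝ) / (((4 : ℕ) : ℝ) * 1 - 2 * 1) = 1 := by norm_num
          rw [this]
          exact ⟨by norm_num, hD1⟩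
        · have : (2 : ℝ) / (((5 : ℕ) : ℝ) * 1 - 2 * 1) = 2 / 3 := by norm_num
          rw [this]
          exact ⟨by rw [abs_of_pos (by norm_num)]; norm_num, hD3⟩
      · have h6' : (6 : ℝ) ≤ N := by exact_mod_cast h6
        apply low
        · have : (0 : ℝ) ≤ 2 / (N * 1 - 2 * 1) := by positivity
          linarith
        · rw [div_le_div_iff₀ hlp (by norm_num)]
          linarith
    · apply low
      · have : (0 : ℝ) ≤ 2 / (N * 2 - 2 * 0) := by positivity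
        linarith
      · rw [div_le_div_iff₀ hlp (by norm_num)]
        linarith
    · apply low
      · have : (0 : ℝ) ≤ 2 / (N * 4 - 2 * -2) := by positivity
        linarith
      · rw [div_le_div_iff₀ hlp (by norm_num)]
        linarith
  · show |ev N m s 3| ≤ 2 ∧ 1 / 625 ≤ |Dq q (ev N m s 3)|
    rw [e3]
    have hm : 0 ≤ m := by
      rcases h with ⟨rfl, rfl⟩ | ⟨rfl, rfl⟩ | ⟨rfl, rfl⟩ <;> norm_num
    apply low
    · have : m / (N * m - 2 * s) ≤ 2 := by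
        rw [div_le_iff₀ hlp]
        rcases h with ⟨rfl, rfl⟩ | ⟨rfl, rfl⟩ | ⟨rfl, rfl⟩ <;> linarith
      linarith
    · have : 0 ≤ m / (N * m - 2 * s) := by positivity
      linarith

end Pool.Agent.EinW
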