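import Pool.Agent.EinW.Defs

/-!
# Transport of the gap under an isomorphism

`ψ : (Fin q → M) ≃ₗ⁅ℝ⁆ (Fin q → M')`, `ψ x a = φ (x a)`.  `Qf` is preserved (`LieAlgebra.killingForm_of_equiv_apply`); `av (ψ x) = φ (av x)`, so
`Sb, Tb, Db` correspond to each other; the trace forms `TH2` are preserved: `ad (ψ x) = ψ ∘ ad x ∘ ψ⁻¹`, `LinearMap.trace_conj'`.
For `β'` in the class of `M'` let `β = ψ⁻¹ ∘ β' ∘ ψ`: it is symmetric, commutes with the permutations,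
`ellQG .. β z = ellQG .. β' (ψ z)`, `Qf (β z) z = Qf (β' (ψ z)) (ψ z)`.
-/

namespace Pool.Agent.EinW

open Pool.Agent.EStab Pool.Agent.EinS Pool.Agent.SmIso Pool.Agent.EinU Pool.Agent.EinG

section Tr

variable {L L' : Type*} [LieRing L] [LieAlgebra ℝ L] [LieRing L'] [LieAlgebra ℝ L']

theorem Qf_tr (ψ : L ≃ₗ⁅ℝ⁆ L') (x y : L) : Qf L' (ψ x) (ψ y) = Qf L x y := by
  rw [Qf_apply, Qf_apply, LieAlgebra.killingForm_of_equiv_apply]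

/-- The trace forms correspond to each other. -/
theorem TH2_tr (ψ : L ≃ₗ⁅ℝ⁆ L') {T U : L →ₗ[ℝ] L} {T' U' : L' →ₗ[ℝ] L'}
    (hT : ∀ x, T' (ψ x) = ψ (T x)) (hU : ∀ x, U' (ψ x) = ψ (U x)) (x y : L) :
    TH2 T' U' (ψ x) (ψ y) = TH2 T U x y := by
  unfold TH2
  congr 1
  rw [← LinearMap.trace_conj' _ ψ.toLinearEquiv]
  congr 1
  apply LinearMap.ext
  intro z
  obtain ⟨w, hw⟩ : ∃ w, ψ w = z := ⟨ψ.symm z, ψ.apply_symm_apply z⟩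
  subst hw
  rw [LinearEquiv.conj_apply_apply]
  have h1 : ψ.toLinearEquiv.symm (ψ w) = w := ψ.toLinearEquiv.symm_apply_apply w
  rw [h1]
  change ⁅ψ x, T' ⁅ψ y, U' (ψ w)⁆⁆ = ψ ⁅x, T ⁅y, U w⁆⁆
  rw [hU, ← LieEquiv.map_lie, hT, ← LieEquiv.map_lie]

/-- Transport of the gap. -/
theorem gapLG_equiv (ψ : L ≃ₗ⁅ℝ⁆ L') {Γ : Set (L ≃ₗ⁅ℝ⁆ L)} {Γ' : Set (L' ≃ₗ⁅ℝ⁆ L')}
    {S T D : L →ₗ[ℝ] L} {S' T' D' : L' →ₗ[ℝ] L'} {lam K : ℝ}
    (hΓ : ∀ γ ∈ Γ, ∃ γ' ∈ Γ', ∀ x, γ' (ψ x) = ψ (γ x))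
    (hS : ∀ x, S' (ψ x) = ψ (S x)) (hT : ∀ x, T' (ψ x) = ψ (T x))
    (hD : ∀ x, D' (ψ x) = ψ (D x)) (h : GapLG Γ S T D lam K) : GapLG Γ' S' T' D' lam K := by
  intro β' hβ' s hs z'
  set β : L →ₗ[ℝ] L := (ψ.symm : L' →ₗ[ℝ] L) ∘ₗ β' ∘ₗ (ψ : L →ₗ[ℝ] L') with hβ
  have hb : ∀ x, β' (ψ x) = ψ (β x) := by
    intro x
    change β' (ψ x) = ψ (ψ.symm (β' (ψ x)))
    rw [LieEquiv.apply_symm_apply]
  have hcls : Cls Γ β := by
    refine ⟨?_, ?_⟩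
    · intro x y
      rw [← Qf_tr ψ, ← Qf_tr ψ, ← hb, ← hb]
      exact hβ'.1 _ _
    · intro γ hγ x
      obtain ⟨γ', hγ', hg⟩ := hΓ γ hγ
      have h1 : ψ (β (γ x)) = ψ (γ (β x)) := by
        rw [← hb, ← hg, ← hg, ← hb]
        exact hβ'.2 γ' hγ' _
      exact ψ.injective h1
  have hTBT : ∀ x, (T' ∘ₗ β' ∘ₗ T') (ψ x) = ψ ((T ∘ₗ β ∘ₗ T) x) := by
    intro x
    change T' (β' (T' (ψ x))) = ψ (T (β (T x)))
    rw [hT, hb, hT]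
  have hell : ∀ z, ellQG S' T' D' lam β' (ψ z) = ellQG S T D lam β z := by
    intro z
    unfold ellQG
    rw [hb, hD, hS, hS, Qf_tr, Qf_tr, TH2_tr ψ hT hb, TH2_tr ψ hTBT hS,
      TH2_tr ψ hS hb]
  obtain ⟨z, hz⟩ : ∃ z, ψ z = z' := ⟨ψ.symm z', ψ.apply_symm_apply z'⟩
  subst hz
  rw [hb, Qf_tr, Qf_tr]
  apply h β hcls s
  intro w
  rw [← hell, ← Qf_tr ψ w w]
  exact hs _

end Tr

/-- The isomorphism of the powers. -/
def powE {M M' : Type} [LieRing M] [LieAlgebra ℝ M] [LieRing M'] [LieAlgebra ℝ M']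
    (φ : M ≃ₗ⁅ℝ⁆ M') (q : ℕ) : (Fin q → M) ≃ₗ⁅ℝ⁆ (Fin q → M') where
  toFun x a := φ (x a)
  map_add' x y := by
    funext a
    exact map_add φ (x a) (y a)
  map_smul' c x := by
    funext a
    exact map_smul φ c (x a)
  map_lie' := by
    intro x y
    funext a
    exact LieEquiv.map_lie φ (x a) (y a)
  invFun x a := φ.symm (x a)
  left_inv x := by
    funext a
    exact φ.symm_apply_apply (x a)
  right_inv x := by
    funext a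
    exact φ.apply_symm_apply (x a)

theorem powE_apply {M M' : Type} [LieRing M] [LieAlgebra ℝ M] [LieRing M'] [LieAlgebra ℝ M']
    (φ : M ≃ₗ⁅ℝ⁆ M') (q : ℕ) (x : Fin q → M) (a : Fin q) : powE φ q x a = φ (x a) := rfl

theorem av_powE {M M' : Type} [LieRing M] [LieAlgebra ℝ M] [LieRing M'] [LieAlgebra ℝ M']
    (φ : M ≃ₗ⁅ℝ⁆ M') {q : ℕ} (x : Fin q → M) : av (powE φ q x) = φ (av x) := by
  unfold av
  rw [map_smul, map_sum]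
  rfl

theorem Op_powE {M M' : Type} [LieRing M] [LieAlgebra ℝ M] [LieRing M'] [LieAlgebra ℝ M']
    (φ : M ≃ₗ⁅ℝ⁆ M') {q : ℕ} (s t : ℝ) (x : Fin q → M) :
    Op q (sc M' s) (sc M' t) (powE φ q x) = powE φ q (Op q (sc M s) (sc M t) x) := by
  funext a
  rw [Op_apply, powE_apply, powE_apply, Op_apply, av_powE]
  change s • (φ (x a) - φ (av x)) + t • φ (av x) = φ (s • (x a - av x) + t • av x)
  rw [map_add, map_smul, map_smul, map_sub]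

theorem gp_equiv {M M' : Type} [LieRing M] [LieAlgebra ℝ M] [LieRing M'] [LieAlgebra ℝ M']
    (φ : M ≃ₗ⁅ℝ⁆ M') {p P : ℕ} {K : ℝ} (h : Gp M p P K) : Gp M' p P K := by
  intro q hq hq'
  refine gapLG_equiv (powE φ q) ?_ (fun x => Op_powE φ _ _ x) (fun x => Op_powE φ _ _ x)
    (fun x => Op_powE φ _ _ x) (h q hq hq')
  rintro γ ⟨σ, rfl⟩
  exact ⟨permAut1 M' q σ, ⟨σ, rfl⟩, fun x => rfl⟩

end Pool.Agent.EinW
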