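import Pool.Agent.EinW.UGap
import Pool.Agent.EinW.Ann
import Pool.Agent.EinW.Res2
import Pool.Agent.EinW.TrG
import Pool.Agent.EinS.ClLam
import Pool.Agent.EinS.ClFinal

/-!
# Products of powers with a uniform gap
-/

namespace Pool.Agent.EinW

open Matrix Pool.Agent.EStab Pool.Agent.EinS Pool.Agent.SmIso Pool.Agent.EinU Pool.Agent.EinG

theorem einstein_blocksU (P : ℕ) {K : ℝ} (hK : 1 ≤ K) : ∃ δ : ℝ, 0 < δ ∧
    ∀ (n : ℕ) (L : Fin n → Type) [∀ i, LieRing (L i)] [∀ i, LieAlgebra ℝ (L i)]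
      [∀ i, Module.Finite ℝ (L i)], (∀ i, CompactSemisimple (L i)) →
      ∀ q : Fin n → ℕ, (∀ i, 2 ≤ q i ∧ q i ≤ P) →
        (∀ i, GapLG (perm1 (L i) (q i)) (Sb (L i) (q i)) (Tb (L i) (q i)) (Db (L i) (q i)) 1 K) →
      ∀ h : LieSubalgebra ℝ (∀ i, Fin (q i) → L i), (∀ x ∈ h, ∀ i a b, x i a = x i b) →
        CasimirSmall h δ →
          HasEinsteinMetric (∀ i, Fin (q i) → L i) h.toSubmodule
            (autsG h (DP (E := fun i => Fin (q i) → L i) fun i => Sb (L i) (q i))) := by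
  obtain ⟨c, hc⟩ : ∃ c : ℝ, c = 4 * ((P : ℝ) + 1) := ⟨_, rfl⟩
  have hP0 : (0 : ℝ) ≤ P := Nat.cast_nonneg P
  have hc0 : 0 < c := by rw [hc]; positivity
  have hD : 0 < 500 * (K + 2) * c ^ 11 := by positivity
  refine ⟨(1 / (500 * (K + 2) * c ^ 11)) ^ 2, by positivity,
    fun n L _ _ _ hL q hq hgap h hh hcas => ?_⟩
  have hsq : √((1 / (500 * (K + 2) * c ^ 11)) ^ 2) = 1 / (500 * (K + 2) * c ^ 11) :=
    Real.sqrt_sq (by positivity)
  have hB := lbase hL (q := q) (P := P) hq hh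
    (δ := (1 / (500 * (K + 2) * c ^ 11)) ^ 2) (by positivity) hcas
  have hG := pi_gapG hL (q := q) (fun i => by have := (hq i).1; omega)
    (K := K) (by linarith) hgap
  rw [hsq, ← hc] at hB
  have hcomp : CompactSemisimple (∀ i, Fin (q i) → L i) :=
    compact_pi (L := fun i => Fin (q i) → L i) fun i =>
      compact_pi (L := fun _ : Fin (q i) => L i) fun _ => hL i
  exact perturb_einsteinG hcomp hB (K := K + 2) (by linarith) hG (by
    have : 500 * (K + 2) * c ^ 10 * (c * (1 / (500 * (K + 2) * c ^ 11))) = 1 := by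
      field_simp
    linarith) (by simp)

theorem compact_equiv {M M' : Type*} [LieRing M] [LieAlgebra ℝ M] [LieRing M'] [LieAlgebra ℝ M']
    (φ : M ≃ₗ⁅ℝ⁆ M') (h : CompactSemisimple M) : CompactSemisimple M' := by
  intro x hx
  have h1 := h (φ.symm x) (fun h0 => hx (by
    have h2 := congrArg φ h0
    rwa [LieEquiv.apply_symm_apply, map_zero] at h2))
  rwa [LieAlgebra.killingForm_of_equiv_apply φ.symm] at h1

theorem finite_equiv {M M' : Type*} [LieRing M] [LieAlgebra ℝ M] [LieRing M'] [LieAlgebra ℝ M']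
    [Module.Finite ℝ M] (φ : M ≃ₗ⁅ℝ⁆ M') : Module.Finite ℝ M' :=
  Module.Finite.equiv φ.toLinearEquiv

/-- `L` is isomorphic to `so(N)`, `su(N)` or `sp(N)`, `N ≥ 3`. -/
def IsClassical (L : Type) [LieRing L] [LieAlgebra ℝ L] : Prop :=
  ∃ (F : Fld) (N : ℕ), 3 ≤ N ∧ Nonempty (L ≃ₗ⁅ℝ⁆ Gr F.T (Fin N))

theorem sg_m (F : Fld) : ((Coef.m F.T : ℝ) = 1 ∧ (Coef.sg F.T : ℝ) = 1) ∨
    ((Coef.m F.T : ℝ) = 2 ∧ (Coef.sg F.T : ℝ) = 0) ∨
    ((Coef.m F.T : ℝ) = 4 ∧ (Coef.sg F.T : ℝ) = -2) := by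
  rcases F with _ | _ | _
  · left
    exact ⟨Nat.cast_one, rfl⟩
  · right; left
    exact ⟨Nat.cast_two, rfl⟩
  · right; right
    exact ⟨by norm_num [Coef.m, Fld.coef], rfl⟩

theorem cl_ann (F : Fld) {N : ℕ} (hN : 3 ≤ N) : CompactSemisimple (cl F.T (Fin N)) ∧
    AnnM (cl F.T (Fin N)) (ev N (Coef.m F.T) (Coef.sg F.T)) := by
  haveI : NeZero N := ⟨by omega⟩
  have hms := sg_m F
  have hN' : (3 : ℝ) ≤ N := by exact_mod_cast hN
  have hlm : lm F.T (Fin N) = N * Coef.m F.T - 2 * Coef.sg F.T := by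
    unfold lm
    rw [Fintype.card_fin]
  have hl0 : 0 < lm F.T (Fin N) := by
    rw [hlm]
    rcases hms with ⟨h1, h2⟩ | ⟨h1, h2⟩ | ⟨h1, h2⟩ <;> rw [h1, h2] <;> linarith
  have hcomp : CompactSemisimple (cl F.T (Fin N)) := by
    refine cl_compact ?_
    rw [Fintype.card_fin]
    rw [hlm] at hl0
    linarith
  have hann := annM_cl (A := F.T) (ι := Fin N) hl0.ne' (by
    rcases hms with ⟨h1, h2⟩ | ⟨h1, h2⟩ | ⟨h1, h2⟩ <;> rw [h1, h2] <;> norm_num)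
  refine ⟨hcomp, ?_⟩
  unfold ev
  rw [← hlm]
  exact hann

theorem cl_gap (P : ℕ) : ∃ K : ℝ, 1 ≤ K ∧ ∀ (F : Fld) (N : ℕ), 3 ≤ N →
    Gp (Gr F.T (Fin N)) 12 P K := by
  obtain ⟨K, hK, h⟩ := ugap P (dl_pos P)
  refine ⟨K, hK, fun F N hN q hq hqP => ?_⟩
  have hfin : Module.Finite ℝ (cl F.T (Fin N)) := cl_finite
  obtain ⟨hcomp, hann⟩ := cl_ann F hN
  exact h (cl F.T (Fin N)) hcomp _ hann q (by omega) hqP (fun i => ev_ok hq hqP hN (sg_m F) i)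

theorem cl_gap2 : ∃ K : ℝ, 1 ≤ K ∧ ∀ (F : Fld) (N : ℕ), 3 ≤ N → Gp (Gr F.T (Fin N)) 2 3 K := by
  obtain ⟨K, hK, h⟩ := ugap 3 (δ := 1 / 625) (by norm_num)
  refine ⟨K, hK, fun F N hN q hq hqP => ?_⟩
  have hfin : Module.Finite ℝ (cl F.T (Fin N)) := cl_finite
  obtain ⟨hcomp, hann⟩ := cl_ann F hN
  exact h (cl F.T (Fin N)) hcomp _ hann q hq hqP (fun i => ev_ok2 hq hqP hN (sg_m F) i)

theorem list_gap {r : ℕ} (E : Fin r → Type) [∀ j, LieRing (E j)]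
    [∀ j, LieAlgebra ℝ (E j)] [∀ j, Module.Finite ℝ (E j)]
    (hE : ∀ j, CompactSemisimple (E j)) : ∃ p : ℕ, 2 ≤ p ∧ ∀ P : ℕ, ∃ K : ℝ, 1 ≤ K ∧
      ∀ j, Gp (E j) p P K := by
  classical
  choose p0 hp0 hnon using fun j => exists_nonres (hE j)
  refine ⟨2 + ∑ j, p0 j, by omega, fun P => ?_⟩
  have hle : ∀ j, p0 j ≤ 2 + ∑ j, p0 j := fun j =>
    (Finset.single_le_sum (f := p0) (fun j _ => Nat.zero_le _) (Finset.mem_univ j)).trans
      (by omega)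
  have h1 : ∀ j (q : ℕ), ∃ K : ℝ, 1 ≤ K ∧ (2 + ∑ j, p0 j ≤ q →
      GapLG (perm1 (E j) q) (Sb (E j) q) (Tb (E j) q) (Db (E j) q) 1 K) := by
    intro j q
    by_cases hq : 2 + ∑ j, p0 j ≤ q
    · obtain ⟨K, hK, h2⟩ := blk_gap (hE j) (q := q) (by omega)
        (hnon j q ((hle j).trans hq))
      exact ⟨K, hK, fun _ => h2⟩
    · exact ⟨1, le_rfl, fun h => absurd h hq⟩
  choose K' hK' hgap' using h1
  refine ⟨1 + ∑ j, ∑ q ∈ Finset.range (P + 1), K' j q, ?_, fun j q h2 h3 => ?_⟩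
  · have : 0 ≤ ∑ j, ∑ q ∈ Finset.range (P + 1), K' j q :=
      Finset.sum_nonneg fun j _ => Finset.sum_nonneg fun q _ => by linarith [hK' j q]
    linarith
  · refine gapLG_mono (hgap' j q h2) ?_
    have h4 : K' j q ≤ ∑ q ∈ Finset.range (P + 1), K' j q :=
      Finset.single_le_sum (f := fun q => K' j q) (fun q _ => by linarith [hK' j q])
        (Finset.mem_range.2 (by omega))
    have h5 : ∑ q ∈ Finset.range (P + 1), K' j q ≤
        ∑ j, ∑ q ∈ Finset.range (P + 1), K' j q :=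
      Finset.single_le_sum (f := fun j => ∑ q ∈ Finset.range (P + 1), K' j q)
        (fun j _ => Finset.sum_nonneg fun q _ => by linarith [hK' j q]) (Finset.mem_univ j)
    linarith

/-- The gap for all classical algebras and a finite list of others. -/
theorem all_gap {r : ℕ} (E : Fin r → Type) [∀ j, LieRing (E j)]
    [∀ j, LieAlgebra ℝ (E j)] [∀ j, Module.Finite ℝ (E j)]
    (hE : ∀ j, CompactSemisimple (E j)) : ∃ p : ℕ, 2 ≤ p ∧ ∀ P : ℕ, ∃ K : ℝ, 1 ≤ K ∧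
      ∀ (M : Type) [LieRing M] [LieAlgebra ℝ M],
        (IsClassical M ∨ ∃ j, Nonempty (M ≃ₗ⁅ℝ⁆ E j)) → Gp M p P K := by
  obtain ⟨p, hp, hlist⟩ := list_gap E hE
  refine ⟨12 + p, by omega, fun P => ?_⟩
  obtain ⟨K1, hK1, h1⟩ := hlist P
  obtain ⟨K2, hK2, h2⟩ := cl_gap P
  refine ⟨K1 + K2, by linarith, fun M _ _ hM => ?_⟩
  rcases hM with ⟨F, N, hN, ⟨φ⟩⟩ | ⟨j, ⟨φ⟩⟩
  · intro q hq hqP
    exact gapLG_mono (gp_equiv φ.symm (h2 F N hN) q (by omega) hqP) (by linarith)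
  · intro q hq hqP
    exact gapLG_mono (gp_equiv φ.symm (h1 j) q (by omega) hqP) (by linarith)

theorem isCl_compact {r : ℕ} {E : Fin r → Type} [∀ j, LieRing (E j)]
    [∀ j, LieAlgebra ℝ (E j)] [∀ j, Module.Finite ℝ (E j)]
    (hE : ∀ j, CompactSemisimple (E j)) {M : Type} [LieRing M] [LieAlgebra ℝ M]
    (h : IsClassical M ∨ ∃ j, Nonempty (M ≃ₗ⁅ℝ⁆ E j)) :
    CompactSemisimple M ∧ Module.Finite ℝ M := by
  rcases h with ⟨F, N, hN, ⟨φ⟩⟩ | ⟨j, ⟨φ⟩⟩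
  · have hcomp' : CompactSemisimple (Gr F.T (Fin N)) := (cl_ann F hN).1
    have hfin : Module.Finite ℝ (Gr F.T (Fin N)) :=
      inferInstanceAs (Module.Finite ℝ (cl F.T (Fin N)))
    exact ⟨compact_equiv φ.symm hcomp', finite_equiv φ.symm⟩
  · exact ⟨compact_equiv φ.symm (hE j), finite_equiv φ.symm⟩

end Pool.Agent.EinW
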