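import Pool.Agent.EinW.CasD

/-!
# The Casimir operator of a subalgebra of the product of the diagonals
-/

namespace Pool.Agent.EinW

open Matrix Pool.Agent.EStab Pool.Agent.EinS Pool.Agent.SmIso Pool.Agent.EinU Pool.Agent.EinG
  Pool.Agent.EinV

section

variable {n : ℕ} {L : Fin n → Type} [∀ i, LieRing (L i)] [∀ i, LieAlgebra ℝ (L i)]
  {q : Fin n → ℕ}

/-- The projection of `h` to the diagonal of `(L i)^(q i)`. -/
def prSet (h : LieSubalgebra ℝ (∀ i, Fin (q i) → L i)) (i : Fin n) : Set (L i) :=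
  {y | ∃ x ∈ h, ∀ a, x i a = y}

/-- `L i` is `so(N)`, `su(N)` or `sp(N)`, `N ≥ 3`, and the projection of `h` has dimension at most `ε N²`. -/
def SmallPr (h : LieSubalgebra ℝ (∀ i, Fin (q i) → L i)) (i : Fin n) (ε : ℝ) : Prop :=
  ∃ (F : Fld) (N : ℕ), 3 ≤ N ∧ Nonempty (L i ≃ₗ⁅ℝ⁆ Gr F.T (Fin N)) ∧
    (Set.finrank ℝ (prSet h i) : ℝ) ≤ ε * N ^ 2

end

/-- Bessel families. -/
theorem bessel_cas {g : Type} [LieRing g] [LieAlgebra ℝ g] [Module.Finite ℝ g]
    (hg : CompactSemisimple g) {m : ℕ} {z : Fin m → g}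
    (hz : ∀ v, ∑ i, Qf g (z i) v ^ 2 ≤ Qf g v v) (w : g) :
    ∑ i, Qf g ⁅z i, w⁆ ⁅z i, w⁆ ≤ Qf g w w := by
  obtain ⟨d, e, he⟩ := exists_frame hg (⊤ : LieSubalgebra ℝ g).toSubmodule
  have he' : IsFrame (⊤ : Submodule ℝ g) e := he
  have h1 := casimir_aux hg he z (fun j => LieSubalgebra.mem_top _) (fun v => hz v) w
  have h2 : ∑ i, Qf g ⁅e i, w⁆ ⁅e i, w⁆ = Qf g w w := by
    rw [he'.killing w w]
    refine Finset.sum_congr rfl fun i _ => ?_
    rw [← lie_skew w (e i)]
    simp only [map_neg, LinearMap.neg_apply, neg_neg]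
  rwa [h2] at h1

theorem cas_blocks {δ : ℝ} (hδ : 0 < δ) : ∃ (n₀ : ℕ) (ε : ℝ), 0 < ε ∧
    ∀ (n : ℕ) (L : Fin n → Type) [∀ i, LieRing (L i)] [∀ i, LieAlgebra ℝ (L i)]
      [∀ i, Module.Finite ℝ (L i)], (∀ i, CompactSemisimple (L i)) →
      ∀ (q : Fin n → ℕ) (h : LieSubalgebra ℝ (∀ i, Fin (q i) → L i)),
        (∀ x ∈ h, ∀ i a b, x i a = x i b) →
        (∀ i, n₀ ≤ q i ∨ (0 < q i ∧ SmallPr h i ε)) → CasimirSmall h δ := by
  obtain ⟨n₁, hn₁⟩ := exists_nat_gt (1 / δ)
  refine ⟨n₁ + 1, (δ / 4) ^ 2 / 9, by positivity, fun n L _ _ _ hL q h hh hi m a ha ho x => ?_⟩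
  have hq : ∀ i, 0 < q i := by
    intro i
    rcases hi i with h1 | h1
    · omega
    · exact h1.1
  have hcq : ∀ i, CompactSemisimple (Fin (q i) → L i) := fun i =>
    compact_pi (L := fun _ : Fin (q i) => L i) fun _ => hL i
  have hg : CompactSemisimple (∀ i, Fin (q i) → L i) := compact_pi (L := fun i => Fin (q i) → L i) hcq
  have hpi : ∀ u v : ∀ i, Fin (q i) → L i, -killingForm ℝ (∀ i, Fin (q i) → L i) u v =
      ∑ i, ∑ k, Qf (L i) (u i k) (v i k) := by
    intro u v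
    have h1 := Qf_pi (L := fun i => Fin (q i) → L i) u v
    refine h1.trans (Finset.sum_congr rfl fun i _ => ?_)
    exact Qf_pi (L := fun _ : Fin (q i) => L i) (u i) (v i)
  -- the elements
  obtain ⟨y, hy⟩ : ∃ y : Fin m → ∀ i, L i, ∀ k i c, a k i c = y k i :=
    ⟨fun k i => a k i ⟨0, hq i⟩, fun k i c => hh _ (ha k) i _ _⟩
  have hypr : ∀ k i, y k i ∈ prSet h i := fun k i => ⟨a k, ha k, fun c => hy k i c⟩
  have hbes : ∀ (i : Fin n) (v : L i), (q i : ℝ) * ∑ k, Qf (L i) (y k i) v ^ 2 ≤ Qf (L i) v v := by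
    intro i v
    have ho' : ∀ k l, Qf (∀ i, Fin (q i) → L i) (a k) (a l) = if k = l then 1 else 0 := by
      intro k l
      rw [Qf_apply, ho]
      split_ifs <;> norm_num
    have h1 := bessel_fam hg ho' (Pi.single i (fun _ : Fin (q i) => v))
    have h2 : ∀ w : ∀ i, Fin (q i) → L i,
        Qf (∀ i, Fin (q i) → L i) (Pi.single i (fun _ : Fin (q i) => v)) w =
          ∑ k, Qf (L i) v (w i k) := by
      intro w
      rw [Qf_apply, hpi, Finset.sum_eq_single i]
      · refine Finset.sum_congr rfl fun k _ => ?_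
        rw [Pi.single_eq_same]
      · intro j _ hj
        refine Finset.sum_eq_zero fun k _ => ?_
        rw [Pi.single_eq_of_ne hj, Pi.zero_apply, map_zero, LinearMap.zero_apply]
      · intro h
        exact absurd (Finset.mem_univ i) h
    rw [h2] at h1
    have h3 : ∀ k, Qf (∀ i, Fin (q i) → L i) (Pi.single i (fun _ : Fin (q i) => v)) (a k) =
        q i * Qf (L i) (y k i) v := by
      intro k
      rw [h2, Finset.sum_congr rfl fun c _ => by rw [hy k i c], Finset.sum_const,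
        Finset.card_univ, Fintype.card_fin, nsmul_eq_mul, Qf_symm v]
    have h4 : ∑ c : Fin (q i), Qf (L i) v ((Pi.single i (fun _ : Fin (q i) => v) :
        ∀ i, Fin (q i) → L i) i c) = q i * Qf (L i) v v := by
      simp only [Pi.single_eq_same, Finset.sum_const, Finset.card_univ, Fintype.card_fin,
        nsmul_eq_mul]
    rw [h4] at h1
    simp only [h3] at h1
    have h5 : ∑ k, ((q i : ℝ) * Qf (L i) (y k i) v) ^ 2 =
        q i * (q i * ∑ k, Qf (L i) (y k i) v ^ 2) := by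
      rw [Finset.mul_sum, Finset.mul_sum]
      exact Finset.sum_congr rfl fun k _ => by ring
    rw [h5] at h1
    exact le_of_mul_le_mul_left h1 (by exact_mod_cast hq i)
  have key : ∀ (i : Fin n) (w : L i), ∑ k, Qf (L i) ⁅y k i, w⁆ ⁅y k i, w⁆ ≤ δ * Qf (L i) w w := by
    intro i w
    have hqi : (0 : ℝ) < q i := by exact_mod_cast hq i
    have hw := Qf_nonneg (hL i) w
    rcases hi i with h1 | ⟨-, F, N, hN, ⟨φ⟩, hd⟩
    · have hs0 : Real.sqrt (q i) * Real.sqrt (q i) = q i := Real.mul_self_sqrt hqi.le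
      have h2 := bessel_cas (hL i) (z := fun k => Real.sqrt (q i) • y k i) (fun v => by
        refine le_trans (le_of_eq ?_) (hbes i v)
        rw [Finset.mul_sum]
        refine Finset.sum_congr rfl fun k _ => ?_
        rw [map_smul, LinearMap.smul_apply, smul_eq_mul, mul_pow, sq (Real.sqrt _), hs0]) w
      have h3 : ∑ k, Qf (L i) ⁅Real.sqrt (q i) • y k i, w⁆ ⁅Real.sqrt (q i) • y k i, w⁆ =
          q i * ∑ k, Qf (L i) ⁅y k i, w⁆ ⁅y k i, w⁆ := by
        rw [Finset.mul_sum]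
        refine Finset.sum_congr rfl fun k _ => ?_
        rw [smul_lie, map_smul, map_smul, LinearMap.smul_apply, smul_eq_mul, smul_eq_mul,
          ← mul_assoc, hs0]
      rw [h3] at h2
      have h4 : 1 / δ < q i := by
        refine hn₁.trans_le ?_
        exact_mod_cast (by omega : n₁ ≤ q i)
      rw [div_lt_iff₀ hδ] at h4
      have h5 : ∑ k, Qf (L i) ⁅y k i, w⁆ ⁅y k i, w⁆ ≤ 1 / q i * Qf (L i) w w := by
        rw [one_div, inv_mul_eq_div, le_div_iff₀ hqi, mul_comm]
        exact h2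
      refine h5.trans (mul_le_mul_of_nonneg_right ?_ hw)
      rw [div_le_iff₀ hqi]
      linarith
    · have hQ : ∀ u v : L i, Qf (Gr F.T (Fin N)) (φ u) (φ v) = Qf (L i) u v := by
        intro u v
        rw [Qf_apply, Qf_apply, LieAlgebra.killingForm_of_equiv_apply φ]
      -- the projection
      let ev : (∀ i, Fin (q i) → L i) →ₗ⁅ℝ⁆ Gr F.T (Fin N) :=
        { toFun := fun x => φ (x i ⟨0, hq i⟩)
          map_add' := fun x y => map_add φ _ _
          map_smul' := fun c x => map_smul φ c _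
          map_lie' := fun {x y} => LieEquiv.map_lie φ _ _ }
      have hev : ∀ x, ev x = φ (x i ⟨0, hq i⟩) := fun x => rfl
      have hfr : Module.finrank ℝ (h.map ev) = Set.finrank ℝ (prSet h i) := by
        unfold Set.finrank
        have h3 : (h.map ev).toSubmodule =
            (Submodule.span ℝ (prSet h i)).map (φ : L i →ₗ[ℝ] Gr F.T (Fin N)) := by
          apply le_antisymm
          · rintro _ ⟨x, hx, rfl⟩
            exact ⟨x i ⟨0, hq i⟩, Submodule.subset_span ⟨x, hx, fun c => hh x hx i _ _⟩, rfl⟩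
          · rw [Submodule.map_le_iff_le_comap, Submodule.span_le]
            rintro u ⟨x, hx, hu⟩
            refine ⟨x, hx, ?_⟩
            change φ (x i ⟨0, hq i⟩) = φ u
            rw [hu]
        have h4 : Module.finrank ℝ (h.map ev) = Module.finrank ℝ (h.map ev).toSubmodule := rfl
        rw [h4, h3]
        exact ((Submodule.equivMapOfInjective _ φ.injective _).finrank_eq).symm
      have h1 := cas_cl F hN (δ := δ / 4) (by positivity) (h := h.map ev) (by
          rw [hfr]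
          exact hd) (b := fun k => φ (y k i)) (fun k => ⟨a k, ha k, by
            change φ (a k i ⟨0, hq i⟩) = φ (y k i)
            rw [hy]⟩) (fun v => by
          obtain ⟨u, rfl⟩ : ∃ u, φ u = v := ⟨φ.symm v, φ.apply_symm_apply v⟩
          have h5 := hbes i u
          have h6 : (1 : ℝ) ≤ q i := by exact_mod_cast hq i
          have h7 : 0 ≤ ∑ k, Qf (L i) (y k i) u ^ 2 := Finset.sum_nonneg fun k _ => sq_nonneg _
          rw [hQ, Finset.sum_congr rfl fun k _ => by rw [hQ]]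
          nlinarith) (φ w)
      have h8 : ∀ k, Qf (Gr F.T (Fin N)) ⁅φ (y k i), φ w⁆ ⁅φ (y k i), φ w⁆ =
          Qf (L i) ⁅y k i, w⁆ ⁅y k i, w⁆ := by
        intro k
        rw [← LieEquiv.map_lie, hQ]
      rw [Finset.sum_congr rfl fun k _ => h8 k, hQ] at h1
      refine h1.trans (le_of_eq ?_)
      ring
  have hsum : ∑ k, -killingForm ℝ (∀ i, Fin (q i) → L i) ⁅a k, x⁆ ⁅a k, x⁆ =
      ∑ i, ∑ c, ∑ k, Qf (L i) ⁅y k i, x i c⁆ ⁅y k i, x i c⁆ := by
    simp only [hpi]
    rw [Finset.sum_comm]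
    refine Finset.sum_congr rfl fun i _ => ?_
    rw [Finset.sum_comm]
    refine Finset.sum_congr rfl fun c _ => Finset.sum_congr rfl fun k _ => ?_
    have h1 : (⁅a k, x⁆ : ∀ i, Fin (q i) → L i) i c = ⁅a k i c, x i c⁆ := rfl
    rw [h1, hy]
  rw [hsum, hpi, Finset.mul_sum]
  refine Finset.sum_le_sum fun i _ => ?_
  rw [Finset.mul_sum]
  exact Finset.sum_le_sum fun c _ => key i (x i c)

end Pool.Agent.EinW
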