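import Pool.Agent.EinV.GoodI
import Pool.Agent.EinV.ExpT
import Pool.Agent.EinV.StQ
import Pool.Agent.SmIso.Diag

/-!
# Subalgebras of small dimension have a small Casimir operator
-/

namespace Pool.Agent.EinW

open Matrix Pool.Agent.EStab Pool.Agent.EinS Pool.Agent.SmIso Pool.Agent.EinU Pool.Agent.EinG
  Pool.Agent.EinV

theorem cas_cl (F : Fld) {N : ℕ} (hN : 3 ≤ N) {δ : ℝ} (hδ : 0 < δ)
    {h : LieSubalgebra ℝ (Gr F.T (Fin N))}
    (hd : (Module.finrank ℝ h : ℝ) ≤ δ ^ 2 / 9 * (N : ℝ) ^ 2) {n : ℕ}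
    {b : Fin n → Gr F.T (Fin N)} (hb : ∀ i, b i ∈ h)
    (hq : ∀ y, ∑ i, Qf (Gr F.T (Fin N)) (b i) y ^ 2 ≤ Qf (Gr F.T (Fin N)) y y)
    (x : Gr F.T (Fin N)) :
    ∑ i, Qf (Gr F.T (Fin N)) ⁅b i, x⁆ ⁅b i, x⁆ ≤ 4 * δ * Qf (Gr F.T (Fin N)) x x := by
  have hN' : 3 ≤ Fintype.card (Fin N) := by rwa [Fintype.card_fin]
  have hfin : Module.Finite ℝ (cl F.T (Fin N)) := cl_finite
  obtain ⟨R, -, -, -, hn⟩ := exists_rp (A := F.T) hN'
  have hs : SmallR R h δ := small_cl F.T hδ hN' R hn (by rw [Fintype.card_fin]; exact hd)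
  exact et_nor R (fun v => fam_small R hs hb hq v) x

theorem finrank_hMat {r : ℕ} {F : Fin r → Fld} {N : Fin r → ℕ}
    (h : LieSubalgebra ℝ (PG F N)) (i : Fin r) : Set.finrank ℝ (hMat h i) =
      Module.finrank ℝ (LieSubalgebra.map (projG F N i) h) := by
  unfold Set.finrank
  let φ : Gr (F i).T (Fin (N i)) →ₗ[ℝ] Matrix (Fin (N i)) (Fin (N i)) (F i).T :=
    { toFun := fun x => x.mat
      map_add' := fun _ _ => rfl
      map_smul' := fun _ _ => rfl }
  have hφ : Function.Injective φ := Subtype.val_injective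
  have h3 : Submodule.span ℝ (hMat h i) =
      ((LieSubalgebra.map (projG F N i) h).toSubmodule).map φ := by
    apply le_antisymm
    · rw [Submodule.span_le]
      rintro _ ⟨x, hx, rfl⟩
      exact ⟨x i, ⟨x, hx, rfl⟩, rfl⟩
    · rintro _ ⟨_, ⟨x, hx, rfl⟩, rfl⟩
      exact Submodule.subset_span ⟨x, hx, rfl⟩
  rw [h3]
  exact (Submodule.equivMapOfInjective φ hφ _).finrank_eq.symm

theorem cas_dim {δ : ℝ} (hδ : 0 < δ) : ∃ ε : ℝ, 0 < ε ∧ ∀ (r : ℕ) (F : Fin r → Fld)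
    (N : Fin r → ℕ), (∀ i, 3 ≤ N i) → ∀ h : LieSubalgebra ℝ (PG F N),
      (∀ i, (Set.finrank ℝ (hMat h i) : ℝ) ≤ ε * N i ^ 2) → CasimirSmall h δ := by
  refine ⟨(δ / 4) ^ 2 / 9, by positivity, fun r F N hN h hd n a ha ho x => ?_⟩
  haveI : ∀ i, Module.Finite ℝ (Gr (F i).T (Fin (N i))) := fun i =>
    inferInstanceAs (Module.Finite ℝ (cl (F i).T (Fin (N i))))
  have hcomp : ∀ i, CompactSemisimple (Gr (F i).T (Fin (N i))) := by
    intro i
    have h1 : CompactSemisimple (cl (F i).T (Fin (N i))) :=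
      cl_comp (by rw [Fintype.card_fin]; exact hN i)
    exact h1
  have hg : CompactSemisimple (∀ i, Gr (F i).T (Fin (N i))) := compact_pi hcomp
  have hpi : ∀ u v : PG F N, -killingForm ℝ (PG F N) u v =
      ∑ i, Qf (Gr (F i).T (Fin (N i))) (u i) (v i) :=
    fun u v => Qf_pi (L := fun i => Gr (F i).T (Fin (N i))) u v
  have ho' : ∀ i j, Qf (∀ i, Gr (F i).T (Fin (N i))) (a i) (a j) = if i = j then 1 else 0 := by
    intro i j
    have h1 : Qf (∀ i, Gr (F i).T (Fin (N i))) (a i) (a j) = -killingForm ℝ (PG F N) (a i) (a j) :=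
      rfl
    rw [h1, ho]
    split_ifs <;> norm_num
  have hbes : ∀ (i : Fin r) (y : Gr (F i).T (Fin (N i))),
      ∑ k, Qf (Gr (F i).T (Fin (N i))) (a k i) y ^ 2 ≤ Qf (Gr (F i).T (Fin (N i))) y y := by
    intro i y
    have h1 := bessel_fam (L := ∀ i, Gr (F i).T (Fin (N i))) hg (e := a) ho' (Pi.single i y)
    have h2 : ∀ w : ∀ i, Gr (F i).T (Fin (N i)),
        Qf (∀ i, Gr (F i).T (Fin (N i))) (Pi.single i y) w =
          Qf (Gr (F i).T (Fin (N i))) y (w i) := by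
      intro w
      rw [Qf_pi, Finset.sum_eq_single i]
      · rw [Pi.single_eq_same]
      · intro j _ hj
        rw [Pi.single_eq_of_ne hj, map_zero, LinearMap.zero_apply]
      · intro h
        exact absurd (Finset.mem_univ i) h
    rw [h2, Pi.single_eq_same] at h1
    refine le_trans (le_of_eq ?_) h1
    refine Finset.sum_congr rfl fun k _ => ?_
    rw [h2, Qf_symm]
  rw [hpi, Finset.mul_sum]
  have h3 : ∑ k, -killingForm ℝ (PG F N) ⁅a k, x⁆ ⁅a k, x⁆ =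
      ∑ i, ∑ k, Qf (Gr (F i).T (Fin (N i))) ⁅a k i, x i⁆ ⁅a k i, x i⁆ := by
    rw [Finset.sum_comm]
    refine Finset.sum_congr rfl fun k _ => ?_
    rw [hpi]
    rfl
  rw [h3]
  refine Finset.sum_le_sum fun i _ => ?_
  have h4 := cas_cl (F i) (hN i) (δ := δ / 4) (by positivity) (h := h.map (projG F N i)) (by
      rw [← finrank_hMat]
      exact hd i) (b := fun k => a k i) (fun k => ⟨a k, ha k, rfl⟩) (hbes i) (x i)
  refine h4.trans (le_of_eq ?_)
  ring

/-- The diagonal copy of a subalgebra with small Casimir operator. -/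
theorem cas_diag {g : Type} [LieRing g] [LieAlgebra ℝ g] [Module.Finite ℝ g]
    (hg : CompactSemisimple g) {n : ℕ} (hn : 0 < n) {h : LieSubalgebra ℝ g} {δ : ℝ}
    (hδ : 0 ≤ δ) (hc : CasimirSmall h δ) : CasimirSmall (diagSub n h) δ := by
  intro m a ha ho x
  choose y hy hay using ha
  have hn0 : (0 : ℝ) < n := by exact_mod_cast hn
  have hn1 : (1 : ℝ) ≤ n := by exact_mod_cast hn
  have hs0 : Real.sqrt n * Real.sqrt n = n := Real.mul_self_sqrt hn0.le
  have hpi : ∀ u v : Fin n → g, -killingForm ℝ (Fin n → g) u v = ∑ k, Qf g (u k) (v k) :=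
    fun u v => Qf_pi (L := fun _ : Fin n => g) u v
  have horth : ∀ i j, (n : ℝ) * Qf g (y i) (y j) = if i = j then 1 else 0 := by
    intro i j
    have h1 := hpi (a i) (a j)
    rw [ho] at h1
    simp only [hay, Finset.sum_const, Finset.card_univ, Fintype.card_fin, nsmul_eq_mul] at h1
    rw [← h1]
    split_ifs <;> norm_num
  let z : Fin m → g := fun i => Real.sqrt n • y i
  have hz : ∀ i j, Qf g (z i) (z j) = if i = j then 1 else 0 := by
    intro i j
    show Qf g (Real.sqrt n • y i) (Real.sqrt n • y j) = _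
    rw [map_smul, map_smul, LinearMap.smul_apply, smul_eq_mul, smul_eq_mul, ← mul_assoc, hs0]
    exact horth i j
  have key : ∀ w : g, ∑ i, Qf g ⁅y i, w⁆ ⁅y i, w⁆ ≤ δ * Qf g w w := by
    intro w
    have h1 := hc m z (fun i => h.smul_mem _ (hy i)) (fun i j => by
      have h2 := hz i j
      rw [Qf_apply] at h2
      rw [← neg_neg (killingForm ℝ g (z i) (z j)), h2]
      split_ifs <;> norm_num) w
    have h3 : ∑ i, -killingForm ℝ g ⁅z i, w⁆ ⁅z i, w⁆ =
        (n : ℝ) * ∑ i, Qf g ⁅y i, w⁆ ⁅y i, w⁆ := by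
      rw [Finset.mul_sum]
      refine Finset.sum_congr rfl fun i _ => ?_
      show Qf g ⁅Real.sqrt n • y i, w⁆ ⁅Real.sqrt n • y i, w⁆ = _
      rw [smul_lie, map_smul, map_smul, LinearMap.smul_apply, smul_eq_mul, smul_eq_mul,
        ← mul_assoc, hs0]
    have h4 : (n : ℝ) * ∑ i, Qf g ⁅y i, w⁆ ⁅y i, w⁆ ≤ δ * Qf g w w := by
      rw [← h3]
      exact h1
    have h5 : 0 ≤ ∑ i, Qf g ⁅y i, w⁆ ⁅y i, w⁆ := Finset.sum_nonneg fun i _ => Qf_nonneg hg _
    nlinarith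
  have hL : ∑ i, -killingForm ℝ (Fin n → g) ⁅a i, x⁆ ⁅a i, x⁆ =
      ∑ k, ∑ i, Qf g ⁅y i, x k⁆ ⁅y i, x k⁆ := by
    rw [Finset.sum_comm]
    refine Finset.sum_congr rfl fun i _ => ?_
    rw [hpi]
    refine Finset.sum_congr rfl fun k _ => ?_
    rw [pi_lie_apply, hay]
  rw [hL, hpi, Finset.mul_sum]
  exact Finset.sum_le_sum fun k _ => key (x k)

end Pool.Agent.EinW
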