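import Pool.Agent.EinW.Inv

/-!
# The four invariants of a pair of elements of `so(N)`, `su(N)`, `sp(N)`
-/

namespace Pool.Agent.EinW

open Matrix Pool.Agent.EStab Pool.Agent.EinS

attribute [local instance 100] LieRing.ofAssociativeRing

variable {A : Type} [Ring A] [StarRing A] [Algebra ℝ A] [Cen A] [Coef A]
variable {ι : Type} [Fintype ι] [DecidableEq ι]

/-! ### The central part -/

theorem m_ne : (Coef.m A : ℝ) ≠ 0 := by
  have h : 0 < Coef.m A := Coef.m_pos (A := A)
  exact_mod_cast h.ne'

theorem ce_one : ce (1 : A) = 1 := by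
  have h := Coef.sum1 (1 : A)
  simp only [mul_one] at h
  rw [Finset.sum_congr rfl fun i _ => b_mul_star (A := A) i, Finset.sum_const, Finset.card_univ,
    Fintype.card_fin, ← Nat.cast_smul_eq_nsmul ℝ] at h
  have h2 := congrArg (fun x => (Coef.m A : ℝ)⁻¹ • x) h
  simp only [smul_smul, inv_mul_cancel₀ (m_ne (A := A)), one_smul] at h2
  exact h2.symm

theorem rl_ce (x : A) : rl (ce x) = rl x := by
  have h := congrArg (fun y => rl y) (Coef.sum1 x)
  simp only [rl_sum, rl_smul] at h
  have h1 : ∀ i : Fin (Coef.m A), rl (Coef.b i * x * star (Coef.b i)) = rl x := by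
    intro i
    rw [rl_mul_comm, ← mul_assoc, b_star_mul, one_mul]
  rw [Finset.sum_congr rfl fun i _ => h1 i, Finset.sum_const, Finset.card_univ,
    Fintype.card_fin, nsmul_eq_mul] at h
  exact (mul_left_cancel₀ (m_ne (A := A)) h).symm

theorem self_adj {x : A} (h : star x = x) : x = rl x • (1 : A) := by
  have h1 := Coef.add_star x
  rw [h, ← two_smul ℝ, mul_smul] at h1
  have h1' : (2 : ℝ) • x = (2 : ℝ) • (rl x • (1 : A)) := h1
  exact smul_right_injective A (two_ne_zero (α := ℝ)) h1'

theorem rl_one : rl (1 : A) = 1 := Coef.re_one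

theorem cp_real {X : Matrix ι ι A} (h : star (ce (trace X)) = ce (trace X)) (Y : Matrix ι ι A) :
    cp X Y = rt X * rt Y := by
  unfold cp rt
  rw [self_adj h, smul_mul_assoc, one_mul, rl_smul, rl_ce, rl_ce]

theorem cp_herm {X : Matrix ι ι A} (h : Xᴴ = X) (Y : Matrix ι ι A) : cp X Y = rt X * rt Y := by
  refine cp_real ?_ Y
  rw [star_ce, ← trace_conjT, h]

theorem rt_one : rt (1 : Matrix ι ι A) = Fintype.card ι := by
  unfold rt
  rw [Matrix.trace_one, ← nsmul_one, ← Nat.cast_smul_eq_nsmul ℝ, rl_smul, rl_one, mul_one]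

theorem cp_one (Y : Matrix ι ι A) : cp Y 1 = Fintype.card ι * rt Y := by
  rw [cp_comm, cp_herm (Matrix.conjTranspose_one), rt_one]

/-! ### The contraction -/

/-- The trace as a linear map. -/
noncomputable def rtL : Matrix ι ι A →ₗ[ℝ] ℝ where
  toFun := rt
  map_add' := rt_add
  map_smul' c X := rt_smul c X

/-- The bilinear form of the contraction. -/
noncomputable def BB (P R x : Matrix ι ι A) : Matrix ι ι A →ₗ[ℝ] Matrix ι ι A →ₗ[ℝ] ℝ :=
  LinearMap.mk₂ ℝ (fun w w' => rt (P * (x * w - w * x) * R * (x * w' - w' * x)))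
    (fun w w' y => by
      have h : P * (x * (w + w') - (w + w') * x) * R * (x * y - y * x) =
          P * (x * w - w * x) * R * (x * y - y * x) +
          P * (x * w' - w' * x) * R * (x * y - y * x) := by
        noncomm_ring
      rw [h, rt_add])
    (fun c w y => by
      rw [Matrix.mul_smul, Matrix.smul_mul, ← smul_sub, Matrix.mul_smul, Matrix.smul_mul,
        Matrix.smul_mul, rt_smul, smul_eq_mul])
    (fun w y y' => by
      have h : P * (x * w - w * x) * R * (x * (y + y') - (y + y') * x) =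
          P * (x * w - w * x) * R * (x * y - y * x) +
          P * (x * w - w * x) * R * (x * y' - y' * x) := by
        noncomm_ring
      rw [h, rt_add])
    (fun c w y => by
      rw [Matrix.mul_smul, Matrix.smul_mul, ← smul_sub, Matrix.mul_smul, rt_smul, smul_eq_mul])

theorem BB_apply (P R x w w' : Matrix ι ι A) :
    BB P R x w w' = rt (P * (x * w - w * x) * R * (x * w' - w' * x)) := rfl

theorem BB_pr [Nonempty ι] (P R x E w' : Matrix ι ι A) :
    BB P R x (pr E : cl A ι).1 w' = 1 / 2 * (BB P R x E w' - BB P R x Eᴴ w') := by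
  have h1 : BB P R x (Matrix.diagonal fun _ => cc E) w' = 0 := by
    have h2 : x * (Matrix.diagonal fun _ => cc E) - (Matrix.diagonal fun _ => cc E) * x = 0 := by
      ext i j
      rw [Matrix.sub_apply, Matrix.mul_diagonal, Matrix.diagonal_mul, cc_comm, sub_self,
        Matrix.zero_apply]
    rw [BB_apply, h2, Matrix.mul_zero, Matrix.zero_mul, Matrix.zero_mul]
    exact map_zero rtL
  rw [pr_apply, map_sub, LinearMap.sub_apply, h1, sub_zero, map_smul, LinearMap.smul_apply,
    map_sub, LinearMap.sub_apply, smul_eq_mul]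

theorem con_one (P R x : Matrix ι ι A) : ∑ a : ι, ∑ b : ι, ∑ k : Fin (Coef.m A),
    BB P R x (Matrix.single a b (Coef.b k)) (Matrix.single a b (Coef.b k)) =
    Coef.sg A * (rt (P * x * (R * x)ᴴ) - rt (x * P * x * Rᴴ) - rt (P * (x * R * x)ᴴ) +
      rt (x * P * (x * R)ᴴ)) := by
  have h1 : ∀ E : Matrix ι ι A, BB P R x E E = rt ((P * x) * E * (R * x) * E) -
      rt ((x * P * x) * E * R * E) - rt (P * E * (x * R * x) * E) +
      rt ((x * P) * E * (x * R) * E) := by
    intro E
    have e1 : rt ((x * P * x) * E * R * E) = rt (P * x * E * R * E * x) := by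
      rw [rt_comm (P * x * E * R * E) x]
      congr 1
      noncomm_ring
    have e2 : rt ((x * P) * E * (x * R) * E) = rt (P * E * x * R * E * x) := by
      rw [rt_comm (P * E * x * R * E) x]
      congr 1
      noncomm_ring
    rw [BB_apply, e1, e2, ← rt_sub, ← rt_sub, ← rt_add]
    congr 1
    noncomm_ring
  simp only [h1, Finset.sum_add_distrib, Finset.sum_sub_distrib, sum_EE]
  ring

theorem con_two (P R x : Matrix ι ι A) : ∑ a : ι, ∑ b : ι, ∑ k : Fin (Coef.m A),
    BB P R x (Matrix.single a b (Coef.b k))ᴴ (Matrix.single a b (Coef.b k)) =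
    Coef.m A * (cp (P * x) (R * x) - cp (x * P * x) R - cp P (x * R * x) +
      cp (x * P) (x * R)) := by
  have h1 : ∀ E F : Matrix ι ι A, BB P R x F E = rt ((P * x) * F * (R * x) * E) -
      rt ((x * P * x) * F * R * E) - rt (P * F * (x * R * x) * E) +
      rt ((x * P) * F * (x * R) * E) := by
    intro E F
    have e1 : rt ((x * P * x) * F * R * E) = rt (P * x * F * R * E * x) := by
      rw [rt_comm (P * x * F * R * E) x]
      congr 1
      noncomm_ring
    have e2 : rt ((x * P) * F * (x * R) * E) = rt (P * F * x * R * E * x) := by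
      rw [rt_comm (P * F * x * R * E) x]
      congr 1
      noncomm_ring
    rw [BB_apply, e1, e2, ← rt_sub, ← rt_sub, ← rt_add]
    congr 1
    noncomm_ring
  simp only [h1, Finset.sum_add_distrib, Finset.sum_sub_distrib, sum_EhE]
  ring

/-- The contraction over a frame. -/
theorem con_frame [Nonempty ι] (hl : lm A ι ≠ 0) {J : Type*} [Fintype J] [DecidableEq J]
    {e : J → cl A ι} (he : IsFrame (⊤ : Submodule ℝ (cl A ι)) e) (P R x : Matrix ι ι A) :
    ∑ i, rt (P * (x * (e i).1 - (e i).1 * x) * R * (x * (e i).1 - (e i).1 * x)) =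
    (lm A ι)⁻¹ * (1 / 2) * (Coef.sg A * (rt (P * x * (R * x)ᴴ) - rt (x * P * x * Rᴴ) -
      rt (P * (x * R * x)ᴴ) + rt (x * P * (x * R)ᴴ)) -
      Coef.m A * (cp (P * x) (R * x) - cp (x * P * x) R - cp P (x * R * x) +
      cp (x * P) (x * R))) := by
  have h1 := frame_sum hl he (BB P R x)
  simp only [BB_pr, ← Finset.mul_sum, Finset.sum_sub_distrib, con_one, con_two] at h1
  simp only [BB_apply] at h1
  rw [h1]
  ring

end Pool.Agent.EinW
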