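import Pool.Agent.EinG.Fin

/-!
# A uniform number of factors: definitions

`Dq q t` is the determinant of the linearised Einstein equation on `M^q` at the base metric of `EinG/Blk.lean`
on an eigenspace of `Φ α = UU C α 1` with eigenvalue `t`, multiplied by `16 (q + 1)^2`.
-/

namespace Pool.Agent.EinW

open Pool.Agent.EStab Pool.Agent.EinS Pool.Agent.SmIso Pool.Agent.EinU Pool.Agent.EinG

/-- The determinant of the linearised Einstein equation. -/
noncomputable def Dq (q : ℕ) (t : ℝ) : ℝ :=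
  (12 * (q : ℝ) ^ 2 + 36 * q + 32) * t ^ 2 - (16 * (q : ℝ) ^ 2 + 50 * q + 38) * t +
    (5 * (q : ℝ) ^ 2 + 18 * q + 9)

/-- The determinant as an operator. -/
noncomputable def Dop {V : Type*} [AddCommGroup V] [Module ℝ V] (Φ : V →ₗ[ℝ] V) (q : ℕ) (v : V) : V :=
  (12 * (q : ℝ) ^ 2 + 36 * q + 32) • Φ (Φ v) - (16 * (q : ℝ) ^ 2 + 50 * q + 38) • Φ v +
    (5 * (q : ℝ) ^ 2 + 18 * q + 9) • v

/-- The operator `Φ - t`. -/
noncomputable def stp {V : Type*} [AddCommGroup V] [Module ℝ V] (Φ : V →ₗ[ℝ] V) (t : ℝ) (v : V) : V :=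
  Φ v - t • v

/-- The polynomial `(x - t1) (x - t2) (x - t3) (x - t4)` of `Φ` kills `v`. -/
def Ann4 {V : Type*} [AddCommGroup V] [Module ℝ V] (Φ : V →ₗ[ℝ] V) (t : Fin 4 → ℝ) (v : V) : Prop :=
  stp Φ (t 0) (stp Φ (t 1) (stp Φ (t 2) (stp Φ (t 3) v))) = 0

/-- The operator `α ↦ UU C α 1`. -/
noncomputable def Phi {J : Type*} [Fintype J] [DecidableEq J] (C : J → Matrix J J ℝ) :
    Matrix J J ℝ →ₗ[ℝ] Matrix J J ℝ where
  toFun α := UU C α 1
  map_add' α β := UU_add_left α β 1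
  map_smul' t α := UU_smul_left t α 1

/-- In every frame of `M` the symmetric matrices are killed by the polynomial. -/
def AnnM (M : Type) [LieRing M] [LieAlgebra ℝ M] (t : Fin 4 → ℝ) : Prop :=
  ∀ (n : ℕ) (e : Fin n → M), IsFrame (⊤ : Submodule ℝ M) e → ∀ α : Matrix (Fin n) (Fin n) ℝ,
    α.IsSymm → Ann4 (Phi (CF e)) t α

/-- The gap on the powers of `M` with exponents between `p` and `P`. -/
def Gp (M : Type) [LieRing M] [LieAlgebra ℝ M] (p P : ℕ) (K : ℝ) : Prop :=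
  ∀ q : ℕ, p ≤ q → q ≤ P → GapLG (perm1 M q) (Sb M q) (Tb M q) (Db M q) 1 K

end Pool.Agent.EinW
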