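import Pool.Agent.EinW.Main
import Pool.Agent.EinW.Cas3

/-!
# Quotients by subgroups of the diagonals: the main theorem
-/

namespace Pool.Agent.EinW

open Matrix Pool.Agent.EStab Pool.Agent.EinS Pool.Agent.SmIso Pool.Agent.EinU Pool.Agent.EinG

theorem stable_uniform {r : ℕ} (E : Fin r → Type) [∀ j, LieRing (E j)]
    [∀ j, LieAlgebra ℝ (E j)] [∀ j, Module.Finite ℝ (E j)]
    (hE : ∀ j, CompactSemisimple (E j)) : ∃ (n₀ : ℕ) (ε : ℝ), 0 < ε ∧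
      ∀ (n : ℕ) (L : Fin n → Type) [∀ i, LieRing (L i)] [∀ i, LieAlgebra ℝ (L i)]
        (q : Fin n → ℕ) (h : LieSubalgebra ℝ (∀ i, Fin (q i) → L i)),
        (∀ x ∈ h, ∀ i a b, x i a = x i b) →
        (∀ i, (n₀ ≤ q i ∧ (IsClassical (L i) ∨ ∃ j, Nonempty (L i ≃ₗ⁅ℝ⁆ E j))) ∨
          (2 ≤ q i ∧ SmallPr h i ε)) →
          HasEinsteinMetric (∀ i, Fin (q i) → L i) h.toSubmodule (blockAuts h) := by
  obtain ⟨p, δ, hp, hδ, hmain⟩ := blocks_all E hE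
  obtain ⟨n₁, ε, hε, hcas⟩ := cas_blocks hδ
  refine ⟨p + n₁, ε, hε, fun n L _ _ q h hh hi => ?_⟩
  have hcl : ∀ i, SmallPr h i ε → IsClassical (L i) := by
    rintro i ⟨F, N, hN, hφ, -⟩
    exact ⟨F, N, hN, hφ⟩
  have hL : ∀ i, IsClassical (L i) ∨ ∃ j, Nonempty (L i ≃ₗ⁅ℝ⁆ E j) := by
    intro i
    rcases hi i with ⟨-, h1⟩ | ⟨-, h1⟩
    · exact h1
    · exact Or.inl (hcl i h1)
  haveI : ∀ i, Module.Finite ℝ (L i) := fun i => (isCl_compact hE (hL i)).2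
  have hc : ∀ i, CompactSemisimple (L i) := fun i => (isCl_compact hE (hL i)).1
  refine hmain n L q (fun i => ?_) h hh (hcas n L hc q h hh fun i => ?_)
  · rcases hi i with ⟨h1, h2 | h2⟩ | ⟨h1, h2⟩
    · exact Or.inl ⟨h2, by omega⟩
    · exact Or.inr ⟨h2, by omega⟩
    · exact Or.inl ⟨hcl i h2, h1⟩
  · rcases hi i with ⟨h1, -⟩ | ⟨h1, h2⟩
    · left
      omega
    · right
      exact ⟨by omega, h2⟩

end Pool.Agent.EinW
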