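import Pool.Agent.EinS.ClConj
import Pool.Agent.EinS.ClPair

/-!
# Contractions over a frame of `so(N)`, `su(N)`, `sp(N)`
-/

namespace Pool.Agent.EinW

open Matrix Pool.Agent.EStab Pool.Agent.EinS

attribute [local instance 100] LieRing.ofAssociativeRing

variable {A : Type} [Ring A] [StarRing A] [Algebra ℝ A] [Cen A] [Coef A]
variable {ι : Type} [Fintype ι] [DecidableEq ι]

/-- The real part of the trace. -/
noncomputable def rt (X : Matrix ι ι A) : ℝ := rl (trace X)

/-- The product of the central parts of the traces. -/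
noncomputable def cp (X Y : Matrix ι ι A) : ℝ := rl (ce (trace X) * ce (trace Y))

theorem rt_add (X Y : Matrix ι ι A) : rt (X + Y) = rt X + rt Y := by
  unfold rt
  rw [Matrix.trace_add, rl, map_add]

theorem rt_neg (X : Matrix ι ι A) : rt (-X) = -rt X := by
  unfold rt
  rw [Matrix.trace_neg, rl, map_neg]

theorem rt_sub (X Y : Matrix ι ι A) : rt (X - Y) = rt X - rt Y := by
  rw [sub_eq_add_neg, rt_add, rt_neg, sub_eq_add_neg]

theorem rt_smul (c : ℝ) (X : Matrix ι ι A) : rt (c • X) = c * rt X := by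
  unfold rt
  rw [Matrix.trace_smul, rl_smul]

theorem rt_comm (X Y : Matrix ι ι A) : rt (X * Y) = rt (Y * X) := by
  unfold rt trace
  simp only [Matrix.diag_apply, Matrix.mul_apply, rl_sum]
  rw [Finset.sum_comm]
  exact Finset.sum_congr rfl fun i _ => Finset.sum_congr rfl fun j _ => rl_mul_comm _ _

theorem rt_conjT (X : Matrix ι ι A) : rt Xᴴ = rt X := by
  unfold rt
  rw [Matrix.trace_conjTranspose, rl_star]

theorem cp_comm (X Y : Matrix ι ι A) : cp X Y = cp Y X := rl_mul_comm _ _

theorem cp_neg_right (X Y : Matrix ι ι A) : cp X (-Y) = -cp X Y := by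
  have h1 : ce (trace (-Y)) = -ce (trace Y) := by
    rw [Matrix.trace_neg]
    exact map_neg _ _
  unfold cp
  rw [h1, mul_neg, rl, map_neg]

theorem cp_zero {X : Matrix ι ι A} (h : ce (trace X) = 0) (Y : Matrix ι ι A) : cp X Y = 0 := by
  unfold cp
  rw [h, zero_mul, rl, map_zero]

/-- the trace of a product with a matrix unit -/
theorem tr_single (M : Matrix ι ι A) (a b : ι) (z : A) :
    trace (M * Matrix.single a b z) = M b a * z := by
  unfold trace
  rw [Finset.sum_eq_single b]
  · rw [Matrix.diag_apply, Matrix.mul_single_apply_same]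
  · intro i _ hi
    rw [Matrix.diag_apply, Matrix.mul_single_apply_of_ne _ _ _ _ _ hi]
  · intro h
    exact absurd (Finset.mem_univ b) h

theorem entry_mid (X Y : Matrix ι ι A) (a b i j : ι) (z : A) :
    (X * Matrix.single a b z * Y) i j = X i a * z * Y b j := by
  rw [Matrix.mul_assoc, entry_single, mul_assoc]

theorem sum_byb (y : A) : ∑ k : Fin (Coef.m A), Coef.b k * y * Coef.b k =
    Coef.sg A • star y := by
  have h := congrArg star (Coef.sum2 (star y))
  rw [star_sum, Cen.star_smul', star_star] at h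
  rw [← h]
  refine Finset.sum_congr rfl fun k _ => ?_
  rw [star_mul, star_mul, star_star, star_star, mul_assoc]

/-- `Σ_E re tr (X E Y E) = sg * re tr (X Yᴴ)` -/
theorem sum_EE (X Y : Matrix ι ι A) : ∑ a : ι, ∑ b : ι, ∑ k : Fin (Coef.m A),
    rt (X * Matrix.single a b (Coef.b k) * Y * Matrix.single a b (Coef.b k)) =
    Coef.sg A * rt (X * Yᴴ) := by
  have h1 : ∀ a b : ι, ∑ k : Fin (Coef.m A),
      rt (X * Matrix.single a b (Coef.b k) * Y * Matrix.single a b (Coef.b k)) =
      Coef.sg A * rl (X b a * star (Y b a)) := by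
    intro a b
    have h2 : ∀ k : Fin (Coef.m A),
        rt (X * Matrix.single a b (Coef.b k) * Y * Matrix.single a b (Coef.b k)) =
        rl (X b a * (Coef.b k * Y b a * Coef.b k)) := by
      intro k
      unfold rt
      rw [tr_single, entry_mid]
      congr 1
      noncomm_ring
    simp only [h2]
    rw [← rl_sum, ← Finset.mul_sum, sum_byb, mul_smul_comm, rl_smul]
  simp only [h1]
  unfold rt trace
  rw [rl_sum, Finset.sum_comm, Finset.mul_sum]
  refine Finset.sum_congr rfl fun i _ => ?_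
  rw [Matrix.diag_apply, Matrix.mul_apply, rl_sum, Finset.mul_sum]
  refine Finset.sum_congr rfl fun j _ => ?_
  rw [Matrix.conjTranspose_apply]

/-- `Σ_E re tr (X Eᴴ Y E) = m * cp X Y` -/
theorem sum_EhE (X Y : Matrix ι ι A) : ∑ a : ι, ∑ b : ι, ∑ k : Fin (Coef.m A),
    rt (X * (Matrix.single a b (Coef.b k))ᴴ * Y * Matrix.single a b (Coef.b k)) =
    Coef.m A * cp X Y := by
  have h1 : ∀ a b : ι, ∑ k : Fin (Coef.m A),
      rt (X * (Matrix.single a b (Coef.b k))ᴴ * Y * Matrix.single a b (Coef.b k)) =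
      Coef.m A * rl (ce (X b b) * ce (Y a a)) := by
    intro a b
    have h2 : ∀ k : Fin (Coef.m A),
        rt (X * (Matrix.single a b (Coef.b k))ᴴ * Y * Matrix.single a b (Coef.b k)) =
        rl ((Coef.b k * X b b * star (Coef.b k)) * Y a a) := by
      intro k
      unfold rt
      rw [tr_single, Matrix.conjTranspose_single, entry_mid, rl_mul_comm]
      congr 1
      noncomm_ring
    simp only [h2]
    rw [← rl_sum, ← Finset.sum_mul, Coef.sum1, smul_mul_assoc, rl_smul, rl_ce_mul]
  simp only [h1]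
  unfold cp trace
  rw [ce_sum, ce_sum, Finset.sum_mul_sum, rl_sum, Finset.sum_comm, Finset.mul_sum]
  refine Finset.sum_congr rfl fun i _ => ?_
  rw [rl_sum, Finset.mul_sum]
  rfl

/-- The expansion of a matrix. -/
theorem mat_exp (X : Matrix ι ι A) : X = ∑ a : ι, ∑ b : ι, ∑ k : Fin (Coef.m A),
    rl (X a b * star (Coef.b k)) • Matrix.single a b (Coef.b k) := by
  conv_lhs => rw [Matrix.matrix_eq_sum_single X]
  refine Finset.sum_congr rfl fun i _ => Finset.sum_congr rfl fun j _ => ?_
  conv_lhs => rw [Coef.exp (X i j)]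
  change (Matrix.singleAddMonoidHom i j) _ = _
  rw [map_sum]
  refine Finset.sum_congr rfl fun k _ => ?_
  change Matrix.single i j _ = _ • Matrix.single i j _
  rw [Matrix.smul_single]

theorem ip_pr_left [Nonempty ι] (X : Matrix ι ι A) (w : cl A ι) :
    ip (pr X : cl A ι).1 w.1 = ip X w.1 := by
  have h1 : ip Xᴴ w.1 = -ip X w.1 := by
    have h2 := ip_conjT X w.1ᴴ
    rw [Matrix.conjTranspose_conjTranspose, w.2.1, ip_neg_right] at h2
    exact h2
  have h3 : ip (Matrix.diagonal (fun _ => cc X)) w.1 = 0 := by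
    have h4 := ip_diag_ce (cc X) (X := w.1) (cl_tr w)
    rwa [ce, cen_cc] at h4
  rw [pr_apply, ip_sub, ip_smul, ip_sub, h1, h3]
  ring

theorem ip_single (a b : ι) (z : A) (W : Matrix ι ι A) :
    ip (Matrix.single a b z) W = rl (z * star (W a b)) := by
  unfold ip
  rw [Finset.sum_eq_single a]
  · rw [Finset.sum_eq_single b]
    · rw [Matrix.single_apply_same]
    · intro j _ hj
      rw [Matrix.single_apply_of_ne _ _ _ _ _ (fun h => hj h.2.symm), zero_mul, rl, map_zero]
    · intro h
      exact absurd (Finset.mem_univ b) h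
  · intro i _ hi
    refine Finset.sum_eq_zero fun j _ => ?_
    rw [Matrix.single_apply_of_ne _ _ _ _ _ (fun h => hi h.1.symm), zero_mul, rl, map_zero]
  · intro h
    exact absurd (Finset.mem_univ a) h

/-- The constant `N m - 2 sg`. -/
noncomputable def lm (A : Type) [Ring A] [StarRing A] [Algebra ℝ A] [Cen A] [Coef A]
    (ι : Type) [Fintype ι] : ℝ := (Fintype.card ι : ℝ) * Coef.m A - 2 * Coef.sg A

theorem Qf_lm [Nonempty ι] (x y : cl A ι) : Qf (cl A ι) x y = lm A ι * ip x.1 y.1 := Qf_cl x y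

/-- Sum over a frame. -/
theorem frame_sum [Nonempty ι] (hl : lm A ι ≠ 0) {J : Type*} [Fintype J] [DecidableEq J]
    {e : J → cl A ι} (he : IsFrame (⊤ : Submodule ℝ (cl A ι)) e)
    (B : Matrix ι ι A →ₗ[ℝ] Matrix ι ι A →ₗ[ℝ] ℝ) :
    ∑ i, B (e i).1 (e i).1 = (lm A ι)⁻¹ * ∑ a : ι, ∑ b : ι, ∑ k : Fin (Coef.m A),
      B (pr (Matrix.single a b (Coef.b k)) : cl A ι).1 (Matrix.single a b (Coef.b k)) := by
  have h1 : ∀ (a b : ι) (k : Fin (Coef.m A)),
      (pr (Matrix.single a b (Coef.b k)) : cl A ι).1 =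
        ∑ i, (lm A ι * rl ((e i).1 a b * star (Coef.b k))) • (e i).1 := by
    intro a b k
    have h2 := he.exp (pr (Matrix.single a b (Coef.b k))) Submodule.mem_top
    have h3 := congrArg Subtype.val h2
    rw [h3]
    have h4 : (∑ i, Qf (cl A ι) (pr (Matrix.single a b (Coef.b k))) (e i) • e i).1 =
        ∑ i, Qf (cl A ι) (pr (Matrix.single a b (Coef.b k))) (e i) • (e i).1 := by
      change (cl A ι).toSubmodule.subtype (∑ i, Qf (cl A ι) (pr (Matrix.single a b (Coef.b k)))
        (e i) • e i) = _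
      rw [map_sum]
      rfl
    rw [h4]
    refine Finset.sum_congr rfl fun i _ => ?_
    rw [Qf_lm, ip_pr_left, ip_single, rl_star_mul]
  have h5 : ∀ i, B (e i).1 (e i).1 = ∑ a : ι, ∑ b : ι, ∑ k : Fin (Coef.m A),
      rl ((e i).1 a b * star (Coef.b k)) * B (e i).1 (Matrix.single a b (Coef.b k)) := by
    intro i
    have h6 := congrArg (B (e i).1) (mat_exp (e i).1)
    rw [h6, map_sum]
    refine Finset.sum_congr rfl fun a _ => ?_
    rw [map_sum]
    refine Finset.sum_congr rfl fun b _ => ?_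
    rw [map_sum]
    refine Finset.sum_congr rfl fun k _ => ?_
    rw [map_smul, smul_eq_mul]
  have h7 : ∀ (a b : ι) (k : Fin (Coef.m A)),
      B (pr (Matrix.single a b (Coef.b k)) : cl A ι).1 (Matrix.single a b (Coef.b k)) =
      lm A ι * ∑ i, rl ((e i).1 a b * star (Coef.b k)) *
        B (e i).1 (Matrix.single a b (Coef.b k)) := by
    intro a b k
    rw [h1, map_sum, LinearMap.sum_apply, Finset.mul_sum]
    refine Finset.sum_congr rfl fun i _ => ?_
    rw [map_smul, LinearMap.smul_apply, smul_eq_mul, mul_assoc]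
  rw [Finset.sum_congr rfl fun i _ => h5 i]
  simp only [h7]
  simp only [← Finset.mul_sum]
  rw [← mul_assoc, inv_mul_cancel₀ hl, one_mul, Finset.sum_comm]
  refine Finset.sum_congr rfl fun a _ => ?_
  rw [Finset.sum_comm]
  refine Finset.sum_congr rfl fun b _ => ?_
  rw [Finset.sum_comm]

end Pool.Agent.EinW
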