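import Pool.Agent.EinW.Defs

/-!
# Refinement of the blocks

`e : Fin (∑ i, m i) ≃ Σ i, Fin (m i)` (`finSigmaFinEquiv.symm`), `E i : Fin (q i) ≃ Σ c, Fin (w i c)` (`finCongr`, `finSigmaFinEquiv.symm`);
`r = ∑ i, m i`, `s b = (e b).1`, `c b = (e b).2`, `q' b = w (e b).1 (e b).2`, `pos b a = (E (s b)).symm ⟨(e b).2, a⟩`, `ψ x b a = x (s b) (pos b a)`: an isomorphism
(`LieEquiv.ofBijective`).  Surjective: for `y` let `x' = Equiv.piCongrLeft F e y`, `F p = (Fin (w p.1 p.2) → L p.1)` (`Equiv.piCongrLeft_apply_apply`), and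
`x i k = x' ⟨i, (E i k).1⟩ (E i k).2`.  Injective: every `k : Fin (q i)` is `(E i).symm ⟨c, a⟩`, `⟨i, c⟩ = e b`.
-/

namespace Pool.Agent.EinW

open Pool.Agent.EStab Pool.Agent.EinS Pool.Agent.SmIso Pool.Agent.EinU Pool.Agent.EinG

theorem exists_refine {n : ℕ} (L : Fin n → Type) [∀ l, LieRing (L l)] [∀ l, LieAlgebra ℝ (L l)]
    (q m : Fin n → ℕ) (w : ∀ i, Fin (m i) → ℕ) (hq : ∀ i, q i = ∑ c, w i c) :
    ∃ (r : ℕ) (s : Fin r → Fin n) (c : ∀ b, Fin (m (s b)))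
      (pos : ∀ b, Fin (w (s b) (c b)) → Fin (q (s b)))
      (ψ : (∀ i, Fin (q i) → L i) ≃ₗ⁅ℝ⁆ (∀ b, Fin (w (s b) (c b)) → L (s b))),
      ∀ x b a, ψ x b a = x (s b) (pos b a) := by
  classical
  let e : Fin (∑ i, m i) ≃ Σ i, Fin (m i) := finSigmaFinEquiv.symm
  let E : ∀ i, Fin (q i) ≃ Σ c, Fin (w i c) :=
    fun i => (finCongr (hq i)).trans finSigmaFinEquiv.symm
  let F : (Σ i, Fin (m i)) → Type := fun p => Fin (w p.1 p.2) → L p.1
  let f : (∀ i, Fin (q i) → L i) →ₗ⁅ℝ⁆ (∀ b, Fin (w (e b).1 (e b).2) → L (e b).1) :=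
    { toFun := fun x b a => x (e b).1 ((E (e b).1).symm ⟨(e b).2, a⟩)
      map_add' := fun _ _ => rfl
      map_smul' := fun _ _ => rfl
      map_lie' := rfl }
  have hf : Function.Bijective f := by
    constructor
    · intro x x' hxx
      funext i k
      have h1 := congrFun (congrFun hxx (e.symm ⟨i, (E i k).1⟩))
      have key : ∀ p : Σ i, Fin (m i), p = ⟨i, (E i k).1⟩ →
          (∀ a, x p.1 ((E p.1).symm ⟨p.2, a⟩) = x' p.1 ((E p.1).symm ⟨p.2, a⟩)) →
          x i k = x' i k := by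
        rintro p rfl h
        have := h (E i k).2
        simpa using this
      exact key (e (e.symm ⟨i, (E i k).1⟩)) (by simp) h1
    · intro y
      let x' : ∀ p, F p := Equiv.piCongrLeft F e y
      refine ⟨fun i k => x' ⟨i, (E i k).1⟩ (E i k).2, ?_⟩
      funext b a
      have h1 : x' (e b) = y b := Equiv.piCongrLeft_apply_apply F e y b
      have h2 : ∀ z : Σ c, Fin (w (e b).1 c), z = ⟨(e b).2, a⟩ →
          x' ⟨(e b).1, z.1⟩ z.2 = y b a := by
        rintro z rfl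
        exact congrFun h1 a
      exact h2 _ (by simp)
  exact ⟨_, fun b => (e b).1, fun b => (e b).2,
    fun b a => (E (e b).1).symm ⟨(e b).2, a⟩, LieEquiv.ofBijective f hf, fun x b a => rfl⟩

end Pool.Agent.EinW
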