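import Pool.Agent.EinW.Defs

/-!
# Regrouping of the factors

`F : Fin m × Fin k → Type`, `F (i, l) = (Fin (q i) → L l)`; with `e : Fin (m * k) ≃ Fin m × Fin k` (`finProdFinEquiv.symm`):
`r = m * k`, `s b = (e b).2`, `q' b = q (e b).1`, `ψ : (∀ i, Fin (q i) → ∀ l, L l) → (∀ b, Fin (q' b) → L (s b))`, `ψ x b a = x (e b).1 a (e b).2`,
is an isomorphism of Lie algebras (`LieEquiv.ofBijective`; surjective: `Equiv.piCongrLeft F e`, `Equiv.piCongrLeft_apply_apply`).
It commutes with the operators `DP Sb` since the mean value is taken componentwise.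
-/

namespace Pool.Agent.EinW

open Pool.Agent.EStab Pool.Agent.EinS Pool.Agent.SmIso Pool.Agent.EinU Pool.Agent.EinG

/-- The regrouping homomorphism. -/
def splitHom {k m r : ℕ} (L : Fin k → Type) [∀ l, LieRing (L l)] [∀ l, LieAlgebra ℝ (L l)]
    (q : Fin m → ℕ) (e : Fin r ≃ Fin m × Fin k) :
    (∀ i, Fin (q i) → ∀ l, L l) →ₗ⁅ℝ⁆ (∀ b : Fin r, Fin (q (e b).1) → L (e b).2) where
  toFun x b a := x (e b).1 a (e b).2
  map_add' _ _ := rfl
  map_smul' _ _ := rfl
  map_lie' := rfl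

theorem splitHom_apply {k m r : ℕ} (L : Fin k → Type) [∀ l, LieRing (L l)]
    [∀ l, LieAlgebra ℝ (L l)] (q : Fin m → ℕ) (e : Fin r ≃ Fin m × Fin k)
    (x : ∀ i, Fin (q i) → ∀ l, L l) (b : Fin r) (a : Fin (q (e b).1)) :
    splitHom L q e x b a = x (e b).1 a (e b).2 := rfl

theorem splitHom_bijective {k m r : ℕ} (L : Fin k → Type) [∀ l, LieRing (L l)]
    [∀ l, LieAlgebra ℝ (L l)] (q : Fin m → ℕ) (e : Fin r ≃ Fin m × Fin k) :
    Function.Bijective (splitHom L q e) := by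
  constructor
  · intro x y h
    have key : ∀ p : Fin m × Fin k, (fun a => x p.1 a p.2) = (fun a => y p.1 a p.2) := by
      intro p
      obtain ⟨b, rfl⟩ := e.surjective p
      exact congrFun h b
    funext i a l
    exact congrFun (key (i, l)) a
  · intro y
    refine ⟨fun i a l =>
      Equiv.piCongrLeft (fun p : Fin m × Fin k => (Fin (q p.1) → L p.2)) e y (i, l) a, ?_⟩
    funext b a
    exact congrFun (Equiv.piCongrLeft_apply_apply
      (fun p : Fin m × Fin k => (Fin (q p.1) → L p.2)) e y b) a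

theorem exists_split {k m : ℕ} (L : Fin k → Type) [∀ l, LieRing (L l)] [∀ l, LieAlgebra ℝ (L l)]
    (q : Fin m → ℕ) :
    ∃ (r : ℕ) (s : Fin r → Fin k) (q' : Fin r → ℕ)
      (ψ : (∀ i, Fin (q i) → ∀ l, L l) ≃ₗ⁅ℝ⁆ (∀ b, Fin (q' b) → L (s b))),
      (∀ b, ∃ i, q' b = q i) ∧
      (∀ x : ∀ l, L l, ψ (fun _ _ => x) = fun b _ => x (s b)) ∧
      ∀ x, DP (E := fun b => Fin (q' b) → L (s b)) (fun b => Sb (L (s b)) (q' b)) (ψ x) =
        ψ (DP (E := fun i => Fin (q i) → ∀ l, L l) (fun i => Sb (∀ l, L l) (q i)) x) := by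
  refine ⟨m * k, fun b => (finProdFinEquiv.symm b).2, fun b => q (finProdFinEquiv.symm b).1,
    LieEquiv.ofBijective (splitHom L q finProdFinEquiv.symm) (splitHom_bijective L q _),
    fun b => ⟨_, rfl⟩, fun x => rfl, ?_⟩
  intro x
  funext b a
  have hav : av (fun a => x (finProdFinEquiv.symm b).1 a (finProdFinEquiv.symm b).2) =
      (av (x (finProdFinEquiv.symm b).1)) (finProdFinEquiv.symm b).2 := by
    unfold av
    rw [Pi.smul_apply, Finset.sum_apply]
  change ((cq (q (finProdFinEquiv.symm b).1))⁻¹ •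
      (x (finProdFinEquiv.symm b).1 a (finProdFinEquiv.symm b).2 -
        av (fun a => x (finProdFinEquiv.symm b).1 a (finProdFinEquiv.symm b).2)) +
      (((q (finProdFinEquiv.symm b).1 : ℝ) + 1) * (cq (q (finProdFinEquiv.symm b).1))⁻¹) •
        av (fun a => x (finProdFinEquiv.symm b).1 a (finProdFinEquiv.symm b).2)) =
    ((cq (q (finProdFinEquiv.symm b).1))⁻¹ •
      (x (finProdFinEquiv.symm b).1 a (finProdFinEquiv.symm b).2 -
        (av (x (finProdFinEquiv.symm b).1)) (finProdFinEquiv.symm b).2) +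
      (((q (finProdFinEquiv.symm b).1 : ℝ) + 1) * (cq (q (finProdFinEquiv.symm b).1))⁻¹) •
        (av (x (finProdFinEquiv.symm b).1)) (finProdFinEquiv.symm b).2)
  rw [hav]

end Pool.Agent.EinW
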