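import Pool.Agent.EinW.BlkU
import Pool.Agent.EinW.Reg
import Pool.Agent.EinW.Refi
import Pool.Agent.EinW.CasD

/-!
# An absolute number of factors
-/

namespace Pool.Agent.EinW

open Matrix Pool.Agent.EStab Pool.Agent.EinS Pool.Agent.SmIso Pool.Agent.EinU Pool.Agent.EinG
  Pool.Agent.EinV

theorem blockAuts_autsG {n : ℕ} {L : Fin n → Type} [∀ i, LieRing (L i)] [∀ i, LieAlgebra ℝ (L i)]
    {q : Fin n → ℕ} (h : LieSubalgebra ℝ (∀ i, Fin (q i) → L i)) :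
    blockAuts h ⊆ autsG h (DP (E := fun i => Fin (q i) → L i) fun i => Sb (L i) (q i)) := by
  rintro γ ⟨δ, hγ, hδ⟩
  have hγ' : ∀ x, γ x = compAut q δ x := by
    intro x
    funext i a
    exact hδ x i a
  refine ⟨compAut q δ, ?_, compAut_Op q δ, hγ'⟩
  apply LieSubalgebra.toSubmodule_injective
  rw [← hγ]
  ext x
  constructor
  · rintro ⟨y, hy, rfl⟩
    exact ⟨y, hy, hγ' y⟩
  · rintro ⟨y, hy, rfl⟩
    exact ⟨y, hy, (hγ' y).symm⟩

/-- the partition of `n` -/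
theorem exists_parts {p n : ℕ} (hp : 0 < p) (hn : p ≤ n) : ∃ (m : ℕ) (q : Fin m → ℕ),
    n = ∑ i, q i ∧ ∀ i, p ≤ q i ∧ q i ≤ 2 * p - 1 := by
  obtain ⟨m, hm⟩ : ∃ m, m = n / p - 1 := ⟨_, rfl⟩
  have hm1 : 1 ≤ n / p := (Nat.one_le_div_iff hp).2 hn
  have hdiv : n = p * (m + 1) + n % p := by
    have := Nat.div_add_mod n p
    have h2 : m + 1 = n / p := by omega
    rw [h2]
    omega
  refine ⟨m + 1, fun i => if i = 0 then p + n % p else p, ?_, fun i => ?_⟩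
  · rw [Fin.sum_univ_succ]
    simp only [if_true, Fin.succ_ne_zero, if_false, Finset.sum_const, Finset.card_univ,
      Fintype.card_fin, smul_eq_mul]
    have h3 : p * (m + 1) = p + m * p := by ring
    omega
  · have := Nat.mod_lt n hp
    dsimp only
    split_ifs <;> omega

theorem stable_core {p : ℕ} (hp : 2 ≤ p) {K : ℝ} (hK : 1 ≤ K) : ∃ δ : ℝ, 0 < δ ∧
    ∀ (k : ℕ) (L : Fin k → Type) [∀ i, LieRing (L i)] [∀ i, LieAlgebra ℝ (L i)]
      [∀ i, Module.Finite ℝ (L i)], (∀ i, CompactSemisimple (L i)) →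
      (∀ i, Gp (L i) p (2 * p - 1) K) → ∀ n, p ≤ n →
      ∀ h : LieSubalgebra ℝ (∀ i, L i), CasimirSmall (diagSub n h) δ →
        HasEinsteinMetric (Fin n → ∀ i, L i) (diagonal n h) (factorAuts n h) := by
  obtain ⟨δ, hδ, hmain⟩ := einstein_blocksU (2 * p - 1) hK
  refine ⟨δ, hδ, fun k L _ _ _ hL hgap n hn h hcas0 => ?_⟩
  have hn0 : 0 < n := by omega
  obtain ⟨m, q, hsum, hqb⟩ := exists_parts (p := p) (n := n) (by omega) (by omega)
  obtain ⟨φ, f, hφ⟩ := exists_regroup (g := ∀ i, L i) q hsum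
  obtain ⟨N, s, q', ψ, hq', hψc, hψS⟩ := exists_split L q
  obtain ⟨Φ, hΦ⟩ : ∃ Φ : (∀ b, Fin (q' b) → L (s b)) ≃ₗ⁅ℝ⁆ (Fin n → ∀ i, L i),
      ∀ x, Φ x = φ (ψ.symm x) := ⟨ψ.symm.trans φ, fun x => rfl⟩
  obtain ⟨h', hh'⟩ : ∃ h' : LieSubalgebra ℝ (∀ b, Fin (q' b) → L (s b)),
      ∀ x, x ∈ h' ↔ Φ x ∈ diagSub n h := ⟨(diagSub n h).comap (Φ : _ →ₗ⁅ℝ⁆ _), fun x => Iff.rfl⟩
  have hconst : ∀ y : ∀ i, L i, Φ (fun b _ => y (s b)) = fun _ => y := by
    intro y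
    rw [hΦ, ← hψc y, LieEquiv.symm_apply_apply]
    funext j
    rw [hφ]
  have hmem : ∀ x ∈ h', ∃ y ∈ h, x = fun b _ => y (s b) := by
    intro x hx
    obtain ⟨y, hy, hxy⟩ := (hh' x).1 hx
    refine ⟨y, hy, Φ.injective ?_⟩
    change Φ x = Φ (fun b _ => y (s b))
    rw [hconst]
    funext j
    exact hxy j
  have hcas : CasimirSmall h' δ :=
    casimirSmall_equiv Φ (h := diagSub n h) (fun x hx => (hh' x).1 hx) hcas0
  have hqb' : ∀ b, p ≤ q' b ∧ q' b ≤ 2 * p - 1 := fun b => by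
    obtain ⟨i, hi⟩ := hq' b
    rw [hi]
    exact hqb i
  have hE' := hmain N (fun b => L (s b)) (fun b => hL (s b)) q'
    (fun b => ⟨by have := (hqb' b).1; omega, (hqb' b).2⟩)
    (fun b => hgap (s b) (q' b) (hqb' b).1 (hqb' b).2) h'
    (fun x hx i a b => by
      obtain ⟨y, -, rfl⟩ := hmem x hx
      rfl) hcas
  have hT := einstein_equiv (Γ' := factorAuts n h) Φ (fun γ' hγ' => by
    obtain ⟨δ', h1, h2⟩ := hγ'
    have hst : ∀ y, y ∈ h → δ' y ∈ h := fun y hy => by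
      rw [← h1]
      exact ⟨y, hy, rfl⟩
    obtain ⟨C, hC⟩ : ∃ C : (∀ b, Fin (q' b) → L (s b)) ≃ₗ⁅ℝ⁆ (∀ b, Fin (q' b) → L (s b)),
        ∀ x, C x = ψ (compAut q (fun _ => δ') (ψ.symm x)) :=
      ⟨(ψ.symm.trans (compAut q (fun _ => δ'))).trans ψ, fun x => rfl⟩
    have hCc : ∀ y : ∀ i, L i, C (fun b _ => y (s b)) = fun b _ => (δ' y) (s b) := by
      intro y
      rw [hC, ← hψc y, LieEquiv.symm_apply_apply, ← hψc (δ' y)]
      rfl
    refine ⟨(C : (∀ b, Fin (q' b) → L (s b)) →ₗ[ℝ] _), ⟨C, ?_, ?_, fun x => rfl⟩, fun x => ?_⟩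
    · ext x
      constructor
      · rintro ⟨y, hy, rfl⟩
        obtain ⟨u, hu, rfl⟩ := hmem y hy
        refine (hh' _).2 ⟨δ' u, hst u hu, fun j => ?_⟩
        change Φ (C (fun b _ => u (s b))) j = δ' u
        rw [hCc, hconst]
      · intro hx
        obtain ⟨u, hu, rfl⟩ := hmem x hx
        rw [← h1] at hu
        obtain ⟨v, hv, rfl⟩ := hu
        exact ⟨fun b _ => v (s b), (hh' _).2 ⟨v, hv, fun j => by rw [hconst]⟩, hCc v⟩
    · intro x
      rw [hC, hC, hψS, compAut_Op]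
      congr 2
      have h3 := hψS (ψ.symm x)
      rw [LieEquiv.apply_symm_apply] at h3
      rw [h3, LieEquiv.symm_apply_apply]
    · change γ' (Φ x) = Φ (C x)
      rw [hC, hΦ, hΦ, LieEquiv.symm_apply_apply]
      funext j
      rw [h2, hφ, hφ]
      rfl) hE'
  have hmap : h'.toSubmodule.map (Φ : (∀ b, Fin (q' b) → L (s b)) →ₗ[ℝ] (Fin n → ∀ i, L i)) =
      diagonal n h := by
    ext x
    constructor
    · rintro ⟨y, hy, rfl⟩
      obtain ⟨u, hu, rfl⟩ := hmem y hy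
      exact ⟨u, hu, (hconst u).symm⟩
    · rintro ⟨u, hu, rfl⟩
      refine ⟨fun b _ => u (s b), (hh' _).2 ⟨u, hu, fun j => by rw [hconst]⟩, hconst u⟩
  rwa [hmap] at hT

theorem stable_prod {r : ℕ} (E : Fin r → Type) [∀ j, LieRing (E j)]
    [∀ j, LieAlgebra ℝ (E j)] [∀ j, Module.Finite ℝ (E j)]
    (hE : ∀ j, CompactSemisimple (E j)) : ∃ n₀ : ℕ, ∀ (k : ℕ) (L : Fin k → Type)
      [∀ i, LieRing (L i)] [∀ i, LieAlgebra ℝ (L i)],
      (∀ i, IsClassical (L i) ∨ ∃ j, Nonempty (L i ≃ₗ⁅ℝ⁆ E j)) → ∀ n, n₀ ≤ n →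
      ∀ h : LieSubalgebra ℝ (∀ i, L i),
        HasEinsteinMetric (Fin n → ∀ i, L i) (diagonal n h) (factorAuts n h) := by
  obtain ⟨p, hp2, hp⟩ := all_gap E hE
  obtain ⟨K, hK, hgap⟩ := hp (2 * p - 1)
  obtain ⟨δ, hδ, hmain⟩ := stable_core hp2 hK
  obtain ⟨n₁, hn₁⟩ := exists_nat_gt (1 / δ)
  refine ⟨p + n₁, fun k L _ _ hL n hn h => ?_⟩
  haveI : ∀ i, Module.Finite ℝ (L i) := fun i => (isCl_compact hE (hL i)).2
  have hc : ∀ i, CompactSemisimple (L i) := fun i => (isCl_compact hE (hL i)).1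
  have hg : CompactSemisimple (∀ i, L i) := compact_pi hc
  have hn0 : 0 < n := by omega
  refine hmain k L hc (fun i => hgap (L i) (hL i)) n (by omega) h ?_
  intro l a ha ho x
  refine (diag_casimir hg hn0 h l a ha ho x).trans ?_
  have hx0 : 0 ≤ -killingForm ℝ (Fin n → ∀ i, L i) x x :=
    Qf_nonneg (compact_pi (L := fun _ : Fin n => ∀ i, L i) fun _ => hg) x
  refine mul_le_mul_of_nonneg_right ?_ hx0
  have hnR : 1 / δ < n := by
    refine hn₁.trans_le ?_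
    exact_mod_cast (by omega : n₁ ≤ n)
  rw [div_le_iff₀ (by exact_mod_cast hn0)]
  rw [div_lt_iff₀ hδ] at hnR
  linarith

/-- transport to an isomorphic algebra -/
theorem stable_equiv {g g' : Type} [LieRing g] [LieAlgebra ℝ g] [LieRing g'] [LieAlgebra ℝ g']
    (χ : g ≃ₗ⁅ℝ⁆ g') {n : ℕ} (hmain : ∀ h : LieSubalgebra ℝ g',
      HasEinsteinMetric (Fin n → g') (diagonal n h) (factorAuts n h)) (h : LieSubalgebra ℝ g) :
    HasEinsteinMetric (Fin n → g) (diagonal n h) (factorAuts n h) := by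
  obtain ⟨h', hh'⟩ : ∃ h' : LieSubalgebra ℝ g', ∀ x, x ∈ h' ↔ χ.symm x ∈ h :=
    ⟨h.comap (χ.symm : _ →ₗ⁅ℝ⁆ _), fun x => Iff.rfl⟩
  have h1 := hmain h'
  obtain ⟨Φ, hΦ⟩ : ∃ Φ : (Fin n → g') ≃ₗ⁅ℝ⁆ (Fin n → g), ∀ x j, Φ x j = χ.symm (x j) := by
    refine ⟨{ toFun := fun x j => χ.symm (x j)
              map_add' := fun x y => ?_
              map_smul' := fun c x => ?_
              map_lie' := fun {x y} => ?_
              invFun := fun y j => χ (y j)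
              left_inv := fun x => ?_
              right_inv := fun y => ?_ }, fun x j => rfl⟩
    · funext j
      exact map_add χ.symm (x j) (y j)
    · funext j
      exact map_smul χ.symm c (x j)
    · funext j
      exact LieEquiv.map_lie χ.symm (x j) (y j)
    · funext j
      exact LieEquiv.apply_symm_apply χ (x j)
    · funext j
      exact LieEquiv.symm_apply_apply χ (y j)
  have hT := einstein_equiv (Γ' := factorAuts n h) Φ (fun γ' hγ' => by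
    obtain ⟨δ', h2, h3⟩ := hγ'
    obtain ⟨C, hC⟩ : ∃ C : g' ≃ₗ⁅ℝ⁆ g', ∀ x, C x = χ (δ' (χ.symm x)) :=
      ⟨(χ.symm.trans δ').trans χ, fun x => rfl⟩
    refine ⟨{ toFun := fun x j => C (x j)
              map_add' := fun x y => funext fun j => map_add C (x j) (y j)
              map_smul' := fun c x => funext fun j => map_smul C c (x j) },
      ⟨C, ?_, fun x j => rfl⟩, fun x => ?_⟩
    · ext x
      constructor
      · rintro ⟨y, hy, rfl⟩
        have hy' : χ.symm y ∈ h := (hh' y).1 hy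
        refine (hh' _).2 ?_
        change χ.symm (C y) ∈ h
        rw [hC, LieEquiv.symm_apply_apply, ← h2]
        exact ⟨χ.symm y, hy', rfl⟩
      · intro hx
        have hx' : χ.symm x ∈ h := (hh' x).1 hx
        rw [← h2] at hx'
        obtain ⟨v, hv, hvx⟩ := hx'
        refine ⟨χ v, (hh' _).2 ?_, ?_⟩
        · change χ.symm (χ v) ∈ h
          rw [LieEquiv.symm_apply_apply]
          exact hv
        · change C (χ v) = x
          have h4 : δ' v = χ.symm x := hvx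
          rw [hC, LieEquiv.symm_apply_apply, h4, LieEquiv.apply_symm_apply]
    · funext j
      rw [h3, hΦ, hΦ]
      change δ' (χ.symm (x j)) = χ.symm (C (x j))
      rw [hC, LieEquiv.symm_apply_apply]) h1
  have hmap : (diagonal n h').map (Φ : (Fin n → g') →ₗ[ℝ] (Fin n → g)) = diagonal n h := by
    ext x
    constructor
    · rintro ⟨y, ⟨u, hu, rfl⟩, rfl⟩
      exact ⟨χ.symm u, (hh' u).1 hu, funext fun j => (hΦ (fun _ => u) j).symm⟩
    · rintro ⟨u, hu, rfl⟩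
      refine ⟨fun _ => χ u, ⟨χ u, (hh' _).2 ?_, rfl⟩, funext fun j => ?_⟩
      · rw [LieEquiv.symm_apply_apply]
        exact hu
      · change Φ (fun _ => χ u) j = u
        rw [hΦ, LieEquiv.symm_apply_apply]
  rwa [hmap] at hT

/-- `G/H × G^(n-1)` is an Einstein manifold for all `n ≥ n₀`, where `n₀` does not depend on `G` and `H`. -/
theorem stable_abs {r : ℕ} (E : Fin r → Type) [∀ j, LieRing (E j)]
    [∀ j, LieAlgebra ℝ (E j)] [∀ j, Module.Finite ℝ (E j)]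
    (hE : ∀ j, CompactSemisimple (E j)) : ∃ n₀ : ℕ, ∀ (g : Type) [LieRing g] [LieAlgebra ℝ g]
      (k : ℕ) (L : Fin k → Type) [∀ i, LieRing (L i)] [∀ i, LieAlgebra ℝ (L i)],
      (∀ i, IsClassical (L i) ∨ ∃ j, Nonempty (L i ≃ₗ⁅ℝ⁆ E j)) →
      Nonempty (g ≃ₗ⁅ℝ⁆ ∀ i, L i) → ∀ n, n₀ ≤ n → ∀ h : LieSubalgebra ℝ g,
        HasEinsteinMetric (Fin n → g) (diagonal n h) (factorAuts n h) := by
  obtain ⟨n₀, hmain⟩ := stable_prod E hE
  exact ⟨n₀, fun g _ _ k L _ _ hL ⟨χ⟩ n hn h => stable_equiv χ (hmain k L hL n hn) h⟩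

/-- `G/H × G^(n-1)`, `n ≥ 2`, is an Einstein manifold for all small `H`, `G` a product of classical groups. -/
theorem stable_small : ∃ ε : ℝ, 0 < ε ∧ ∀ (r : ℕ) (F : Fin r → Fld) (N : Fin r → ℕ),
    (∀ i, 3 ≤ N i) → ∀ h : LieSubalgebra ℝ (PG F N),
      (∀ i, (Set.finrank ℝ (hMat h i) : ℝ) ≤ ε * N i ^ 2) → ∀ n, 2 ≤ n →
        HasEinsteinMetric (Fin n → PG F N) (diagonal n h) (factorAuts n h) := by
  obtain ⟨K, hK, hgap⟩ := cl_gap2
  obtain ⟨δ, hδ, hmain⟩ := stable_core le_rfl hK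
  obtain ⟨ε, hε, hcas⟩ := cas_dim hδ
  refine ⟨ε, hε, fun r F N hN h hd n hn => ?_⟩
  haveI : ∀ i, Module.Finite ℝ (Gr (F i).T (Fin (N i))) := fun i =>
    inferInstanceAs (Module.Finite ℝ (cl (F i).T (Fin (N i))))
  have hc : ∀ i, CompactSemisimple (Gr (F i).T (Fin (N i))) := fun i => (cl_ann (F i) (hN i)).1
  have hg : CompactSemisimple (∀ i, Gr (F i).T (Fin (N i))) := compact_pi hc
  exact hmain r (fun i => Gr (F i).T (Fin (N i))) hc (fun i => hgap (F i) (N i) (hN i)) n hn h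
    (cas_diag hg (by omega) hδ.le (hcas r F N hN h hd))

/-- Products of powers. -/
theorem blocks_all {r : ℕ} (E : Fin r → Type) [∀ j, LieRing (E j)]
    [∀ j, LieAlgebra ℝ (E j)] [∀ j, Module.Finite ℝ (E j)]
    (hE : ∀ j, CompactSemisimple (E j)) : ∃ (p : ℕ) (δ : ℝ), 2 ≤ p ∧ 0 < δ ∧
      ∀ (n : ℕ) (L : Fin n → Type) [∀ i, LieRing (L i)] [∀ i, LieAlgebra ℝ (L i)]
      (q : Fin n → ℕ), (∀ i, (IsClassical (L i) ∧ 2 ≤ q i) ∨
        ((∃ j, Nonempty (L i ≃ₗ⁅ℝ⁆ E j)) ∧ p ≤ q i)) →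
      ∀ h : LieSubalgebra ℝ (∀ i, Fin (q i) → L i), (∀ x ∈ h, ∀ i a b, x i a = x i b) →
        CasimirSmall h δ →
          HasEinsteinMetric (∀ i, Fin (q i) → L i) h.toSubmodule (blockAuts h) := by
  classical
  obtain ⟨p, hp2, hp⟩ := list_gap E hE
  obtain ⟨K1, hK1, hlist⟩ := hp (2 * p - 1)
  obtain ⟨K2, hK2, hcl⟩ := cl_gap2
  obtain ⟨δ, hδ, hmain⟩ := einstein_blocksU (2 * p) (K := K1 + K2) (by linarith)
  refine ⟨p, δ, hp2, hδ, fun n L _ _ q hL h hh hcas => ?_⟩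
  have hL' : ∀ i, IsClassical (L i) ∨ ∃ j, Nonempty (L i ≃ₗ⁅ℝ⁆ E j) := fun i =>
    (hL i).imp And.left And.left
  haveI : ∀ i, Module.Finite ℝ (L i) := fun i => (isCl_compact hE (hL' i)).2
  have hc : ∀ i, CompactSemisimple (L i) := fun i => (isCl_compact hE (hL' i)).1
  have hpart : ∀ i, ∃ (m : ℕ) (w : Fin m → ℕ), q i = ∑ c, w c ∧ ∀ c, (2 ≤ w c ∧ w c ≤ 2 * p) ∧
      GapLG (perm1 (L i) (w c)) (Sb (L i) (w c)) (Tb (L i) (w c)) (Db (L i) (w c)) 1
        (K1 + K2) := by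
    intro i
    rcases hL i with ⟨⟨F, N, hN, ⟨φ⟩⟩, hq⟩ | ⟨⟨j, ⟨φ⟩⟩, hq⟩
    · obtain ⟨m, w, h1, h2⟩ := exists_parts (p := 2) (by norm_num) hq
      refine ⟨m, w, h1, fun c => ⟨⟨(h2 c).1, by have := (h2 c).2; omega⟩, ?_⟩⟩
      exact gapLG_mono (gp_equiv φ.symm (hcl F N hN) (w c) (h2 c).1 (h2 c).2) (by linarith)
    · obtain ⟨m, w, h1, h2⟩ := exists_parts (p := p) (by omega) hq
      refine ⟨m, w, h1, fun c => ⟨⟨by have := (h2 c).1; omega, by have := (h2 c).2; omega⟩, ?_⟩⟩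
      exact gapLG_mono (gp_equiv φ.symm (hlist j) (w c) (h2 c).1 (h2 c).2) (by linarith)
  choose m w hqw hw using hpart
  obtain ⟨R, s, c, pos, ψ, hψ⟩ := exists_refine L q m w hqw
  obtain ⟨q', hq'⟩ : ∃ q' : Fin R → ℕ, q' = fun b => w (s b) (c b) := ⟨_, rfl⟩
  obtain ⟨h', hh'⟩ : ∃ h' : LieSubalgebra ℝ (∀ b, Fin (w (s b) (c b)) → L (s b)),
      ∀ x, x ∈ h' ↔ ψ.symm x ∈ h := ⟨h.comap (ψ.symm : _ →ₗ⁅ℝ⁆ _), fun x => Iff.rfl⟩
  have hE' := hmain R (fun b => L (s b)) (fun b => hc (s b)) (fun b => w (s b) (c b))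
    (fun b => (hw (s b) (c b)).1) (fun b => (hw (s b) (c b)).2) h'
    (fun x hx b a a' => by
      have h1 : ψ (ψ.symm x) = x := LieEquiv.apply_symm_apply ψ x
      rw [← h1, hψ, hψ]
      exact hh _ ((hh' x).1 hx) _ _ _)
    (casimirSmall_equiv ψ.symm (fun x hx => (hh' x).1 hx) hcas)
  have hE'' := einstein_monoG hE' (blockAuts_autsG h')
  have hT := einstein_equiv (Γ' := blockAuts h) ψ.symm (fun γ' hγ' => by
    obtain ⟨δ', h1, h2⟩ := hγ'
    have hC : ∀ x, ψ.symm (compAut (fun b => w (s b) (c b)) (fun b => δ' (s b)) x) =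
        γ' (ψ.symm x) := by
      intro x
      refine ψ.injective ?_
      change ψ (ψ.symm _) = ψ (γ' (ψ.symm x))
      rw [LieEquiv.apply_symm_apply]
      funext b a
      rw [hψ, h2]
      have h3 : ψ (ψ.symm x) b a = x b a := by rw [LieEquiv.apply_symm_apply]
      rw [hψ] at h3
      rw [h3]
      rfl
    refine ⟨(compAut (fun b => w (s b) (c b)) (fun b => δ' (s b)) :
      (∀ b, Fin (w (s b) (c b)) → L (s b)) →ₗ[ℝ] _), ⟨fun b => δ' (s b), ?_, fun x b a => rfl⟩,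
      fun x => (hC x).symm⟩
    have h3 : ∀ x, x ∈ h'.toSubmodule ↔ ψ.symm x ∈ h.toSubmodule := fun x => hh' x
    ext x
    constructor
    · rintro ⟨y, hy, rfl⟩
      refine (h3 _).2 ?_
      change ψ.symm (compAut _ _ y) ∈ _
      rw [hC, ← h1]
      exact ⟨_, (h3 y).1 hy, rfl⟩
    · intro hx
      have h4 := (h3 x).1 hx
      rw [← h1] at h4
      obtain ⟨v, hv, hvx⟩ := h4
      refine ⟨ψ v, (h3 _).2 ?_, ?_⟩
      · rw [LieEquiv.symm_apply_apply]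
        exact hv
      · refine ψ.symm.injective ?_
        change ψ.symm (compAut _ _ (ψ v)) = ψ.symm x
        rw [hC, LieEquiv.symm_apply_apply]
        exact hvx) hE''
  have hmap : h'.toSubmodule.map (ψ.symm : (∀ b, Fin (w (s b) (c b)) → L (s b)) →ₗ[ℝ]
      (∀ i, Fin (q i) → L i)) = h.toSubmodule := by
    ext x
    constructor
    · rintro ⟨y, hy, rfl⟩
      exact (hh' y).1 hy
    · intro hx
      refine ⟨ψ x, (hh' _).2 ?_, LieEquiv.symm_apply_apply ψ x⟩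
      rw [LieEquiv.symm_apply_apply]
      exact hx
  rwa [hmap] at hT

end Pool.Agent.EinW
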