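import Pool.Agent.EinW.Defs

/-!
# A bound from an annihilating polynomial

Let `a, b ≤ M0 := 100 (P + 1)²` be the coefficients of `Dq`.  Claim for the product of the last `k` factors (`k = 0, ..., 4`): if it kills
`v ∈ S`, then `‖v‖ ≤ K_k ‖Dop Φ q v‖`, `K_0 = 0`, `K_(k+1) = δ⁻¹ (1 + 12 M0 K_k)`.  Step (the innermost factor is `Φ - t`): `u = stp Φ t v ∈ S` is killed
by the remaining ones (all polynomials of `Φ` commute), `‖u‖ ≤ K_k ‖Dop Φ q u‖ = K_k ‖stp Φ t (Dop Φ q v)‖ ≤ K_k (1 + |t|) ‖Dop Φ q v‖`, and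
`Dq q t • v = Dop Φ q v - (a • Φ u + (a t) • u - b • u)`, so
`δ ‖v‖ ≤ ‖Dop Φ q v‖ + (a (1 + |t|) + b) ‖u‖ ≤ (1 + 4 M0 * 3 K_k) ‖Dop Φ q v‖`.
Do it four times: killed by one factor, by two, ...
-/

namespace Pool.Agent.EinW

section

variable {V : Type} [NormedAddCommGroup V] [NormedSpace ℝ V]

/-- Apply `Φ - t` for all `t` of the list. -/
noncomputable def PolyG.app (Φ : V →ₗ[ℝ] V) : List ℝ → V → V
  | [], v => v
  | t :: ts, v => PolyG.app Φ ts (stp Φ t v)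

/-- The constants. -/
noncomputable def PolyG.cst (M δ : ℝ) : ℕ → ℝ
  | 0 => 0
  | k + 1 => δ⁻¹ * (1 + 12 * M * PolyG.cst M δ k)

theorem PolyG.cst_nonneg {M δ : ℝ} (hM : 0 ≤ M) (hδ : 0 < δ) : ∀ k, 0 ≤ PolyG.cst M δ k
  | 0 => le_rfl
  | k + 1 => by
    have := PolyG.cst_nonneg hM hδ k
    unfold PolyG.cst
    positivity

theorem PolyG.main {P : ℕ} {δ : ℝ} (hδ : 0 < δ) (S : Submodule ℝ V) (Φ : V →ₗ[ℝ] V)
    (hS : ∀ v ∈ S, Φ v ∈ S) (hn : ∀ v ∈ S, ‖Φ v‖ ≤ ‖v‖) {q : ℕ} (hq : q ≤ P) :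
    ∀ ts : List ℝ, (∀ t ∈ ts, |t| ≤ 2 ∧ δ ≤ |Dq q t|) → ∀ v ∈ S, PolyG.app Φ ts v = 0 →
      ‖v‖ ≤ PolyG.cst (100 * ((P : ℝ) + 1) ^ 2) δ ts.length * ‖Dop Φ q v‖ := by
  intro ts
  induction ts with
  | nil =>
    intro _ v _ h
    simp only [PolyG.app] at h
    simp [h, PolyG.cst]
  | cons t ts ih =>
    intro ht v hv h
    obtain ⟨h2, hd⟩ := ht t (by simp)
    have hq' : (q : ℝ) ≤ P := by exact_mod_cast hq
    have hq0 : (0 : ℝ) ≤ q := by positivity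
    have hP0 : (0 : ℝ) ≤ P := by positivity
    set M : ℝ := 100 * ((P : ℝ) + 1) ^ 2 with hM
    set a : ℝ := 12 * (q : ℝ) ^ 2 + 36 * q + 32 with ha
    set b : ℝ := 16 * (q : ℝ) ^ 2 + 50 * q + 38 with hb
    set c : ℝ := 5 * (q : ℝ) ^ 2 + 18 * q + 9 with hc
    have hqq : (q : ℝ) ^ 2 ≤ (P : ℝ) ^ 2 := by nlinarith
    have haM : a ≤ M := by rw [ha, hM]; nlinarith
    have hbM : b ≤ M := by rw [hb, hM]; nlinarith
    have ha0 : 0 ≤ a := by rw [ha]; positivity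
    have hb0 : 0 ≤ b := by rw [hb]; positivity
    have hM0 : 0 ≤ M := by rw [hM]; positivity
    set u : V := stp Φ t v with hu
    have huS : u ∈ S := S.sub_mem (hS v hv) (S.smul_mem t hv)
    have hDS : Dop Φ q v ∈ S :=
      S.add_mem (S.sub_mem (S.smul_mem _ (hS _ (hS v hv))) (S.smul_mem _ (hS v hv)))
        (S.smul_mem _ hv)
    have ih' := ih (fun s hs => ht s (by simp [hs])) u huS h
    have hcomm : Dop Φ q u = stp Φ t (Dop Φ q v) := by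
      simp only [hu, Dop, stp, map_add, map_sub, map_smul, smul_sub, smul_add]
      module
    have hK := PolyG.cst_nonneg hM0 hδ ts.length
    set K := PolyG.cst M δ ts.length with hKdef
    have h3 : ‖Dop Φ q u‖ ≤ 3 * ‖Dop Φ q v‖ := by
      rw [hcomm]
      unfold stp
      calc ‖Φ (Dop Φ q v) - t • Dop Φ q v‖ ≤ ‖Φ (Dop Φ q v)‖ + ‖t • Dop Φ q v‖ := norm_sub_le _ _
        _ ≤ ‖Dop Φ q v‖ + 2 * ‖Dop Φ q v‖ := by
            rw [norm_smul, Real.norm_eq_abs]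
            have := hn _ hDS
            have := mul_le_mul_of_nonneg_right h2 (norm_nonneg (Dop Φ q v))
            linarith
        _ = 3 * ‖Dop Φ q v‖ := by ring
    have hu3 : ‖u‖ ≤ K * (3 * ‖Dop Φ q v‖) := ih'.trans (mul_le_mul_of_nonneg_left h3 hK)
    have hid : Dq q t • v = Dop Φ q v - (a • Φ u + (a * t) • u - b • u) := by
      simp only [hu, Dop, Dq, stp, map_sub, map_smul, ← ha, ← hb, ← hc]
      module
    have hlow : δ * ‖v‖ ≤ ‖Dq q t • v‖ := by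
      rw [norm_smul, Real.norm_eq_abs]
      exact mul_le_mul_of_nonneg_right hd (norm_nonneg _)
    have hup : ‖Dq q t • v‖ ≤ ‖Dop Φ q v‖ + 4 * M * ‖u‖ := by
      rw [hid]
      have e1 : ‖a • Φ u‖ ≤ M * ‖u‖ := by
        rw [norm_smul, Real.norm_eq_abs, abs_of_nonneg ha0]
        exact mul_le_mul haM (hn u huS) (norm_nonneg _) hM0
      have e2 : ‖(a * t) • u‖ ≤ 2 * M * ‖u‖ := by
        rw [norm_smul, Real.norm_eq_abs, abs_mul, abs_of_nonneg ha0]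
        have : a * |t| ≤ 2 * M := by nlinarith [abs_nonneg t]
        exact mul_le_mul_of_nonneg_right this (norm_nonneg _)
      have e3 : ‖b • u‖ ≤ M * ‖u‖ := by
        rw [norm_smul, Real.norm_eq_abs, abs_of_nonneg hb0]
        exact mul_le_mul_of_nonneg_right hbM (norm_nonneg _)
      have e4 := norm_sub_le (Dop Φ q v) (a • Φ u + (a * t) • u - b • u)
      have e5 := norm_sub_le (a • Φ u + (a * t) • u) (b • u)
      have e6 := norm_add_le (a • Φ u) ((a * t) • u)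
      linarith
    have hfin : δ * ‖v‖ ≤ (1 + 12 * M * K) * ‖Dop Φ q v‖ := by
      have : 4 * M * ‖u‖ ≤ 4 * M * (K * (3 * ‖Dop Φ q v‖)) :=
        mul_le_mul_of_nonneg_left hu3 (by positivity)
      nlinarith
    show ‖v‖ ≤ PolyG.cst M δ (ts.length + 1) * ‖Dop Φ q v‖
    have : PolyG.cst M δ (ts.length + 1) = δ⁻¹ * (1 + 12 * M * K) := rfl
    rw [this, mul_assoc, ← div_eq_inv_mul, le_div_iff₀ hδ]
    linarith

end

theorem poly_gap (P : ℕ) {δ : ℝ} (hδ : 0 < δ) : ∃ K : ℝ, 1 ≤ K ∧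
    ∀ (V : Type) [NormedAddCommGroup V] [NormedSpace ℝ V] (S : Submodule ℝ V) (Φ : V →ₗ[ℝ] V),
      (∀ v ∈ S, Φ v ∈ S) → (∀ v ∈ S, ‖Φ v‖ ≤ ‖v‖) → ∀ q : ℕ, q ≤ P → ∀ t : Fin 4 → ℝ,
      (∀ i, |t i| ≤ 2 ∧ δ ≤ |Dq q (t i)|) → ∀ v ∈ S, Ann4 Φ t v → ‖v‖ ≤ K * ‖Dop Φ q v‖ := by
  refine ⟨PolyG.cst (100 * ((P : ℝ) + 1) ^ 2) δ 4 + 1, ?_, ?_⟩
  · have := PolyG.cst_nonneg (M := 100 * ((P : ℝ) + 1) ^ 2) (by positivity) hδ 4
    linarith
  · intro V _ _ S Φ hS hn q hq t ht v hv hA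
    have h := PolyG.main hδ S Φ hS hn hq [t 3, t 2, t 1, t 0]
      (by
        intro s hs
        simp only [List.mem_cons, List.not_mem_nil, or_false] at hs
        rcases hs with rfl | rfl | rfl | rfl <;> exact ht _) v hv hA
    have h' : ‖v‖ ≤ PolyG.cst (100 * ((P : ℝ) + 1) ^ 2) δ 4 * ‖Dop Φ q v‖ := h
    refine h'.trans (mul_le_mul_of_nonneg_right (by linarith) (norm_nonneg _))

end Pool.Agent.EinW
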