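import Pool.Agent.EinW.Defs

/-!
# The determinant at the eigenvalues of the classical Lie algebras

`D(t) = Dq q t`, `a = 12q²+36q+32`, `b = 16q²+50q+38`.
* `t ≤ 1/2`: `D(t) - D(1/2) = (t - 1/2) (a (t + 1/2) - b) ≥ 0` (`a - b < 0`), `D(1/2) = 2q - 2 ≥ 1`.
* `D(1) = q² + 4q + 3`, `D(2) = 21q² + 62q + 61`, `D(2/3) = -(1/3) q² + (2/3) q - 19/9 ≤ -1`.
* `t = 1/2 + 1/(2M)`, `M = N + 1`: `M² D(t) = G := 2(q-1) M² - (2q+1)(q+3) M + (3q²+9q+8)`, an integer.  If `G = 0`, then with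
  `X = 4(q-1)M - (2q+1)(q+3)`: `X² = (2q+1)²(q+3)² - 8(q-1)(3q²+9q+8) = 4q⁴+4q³+13q²+50q+73`, which lies strictly between
  `(2q²+q+3)²` and `(2q²+q+4)²` for `q ≥ 12`; impossible.  If `M ≥ (2q+1)(q+3)`, then `G ≥ M²`, so `D(t) ≥ 1`; otherwise `|G| ≥ 1` and
  `|D(t)| ≥ 1/M² ≥ 1/((2q+1)(q+3))²`.
* The eigenvalues: `l = N m - 2 s`; `m = 1, s = 1`: `l = N - 2`, `1/2 - s/l ≤ 1/2`, `2/l = 2, 1, 2/3` for `N = 3, 4, 5`, `2/l ≤ 1/2` for `N ≥ 6`;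
  `m = 2, s = 0`: `l = 2N`; `m = 4, s = -2`: `l = 4(N+1)`, `1/2 - s/l = 1/2 + 1/(2(N+1))`, `2/l ≤ 1/2`.
-/

namespace Pool.Agent.EinW

/-- The lower bound for the determinant. -/
noncomputable def dl (P : ℕ) : ℝ := 1 / ((2 * (P : ℝ) + 1) * (P + 3)) ^ 2

/-- The eigenvalues of `Φ` for `so(N)`, `su(N)`, `sp(N)`. -/
noncomputable def ev (N : ℕ) (m s : ℝ) : Fin 4 → ℝ :=
  ![1, 1 / 2 - s / (N * m - 2 * s), 2 / (N * m - 2 * s), -(m / (N * m - 2 * s))]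

private theorem dl_le_one (P : ℕ) : dl P ≤ 1 := by
  unfold dl
  have hP : (0 : ℝ) ≤ P := Nat.cast_nonneg P
  rw [div_le_one (by positivity)]
  have : (1 : ℝ) ≤ (2 * (P : ℝ) + 1) * (P + 3) := by nlinarith
  nlinarith

private theorem Dq_low {q P : ℕ} (hq : 12 ≤ q) {t : ℝ} (ht : t ≤ 1 / 2) : dl P ≤ |Dq q t| := by
  have hq' : (12 : ℝ) ≤ q := by exact_mod_cast hq
  refine (dl_le_one P).trans (le_trans ?_ (le_abs_self _))
  have h1 : Dq q t = (2 * (q : ℝ) - 2) + (1 / 2 - t) * ((16 * (q : ℝ) ^ 2 + 50 * q + 38) -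
      (12 * (q : ℝ) ^ 2 + 36 * q + 32) * (t + 1 / 2)) := by
    unfold Dq
    ring
  have h2 : 0 ≤ (16 * (q : ℝ) ^ 2 + 50 * q + 38) - (12 * (q : ℝ) ^ 2 + 36 * q + 32) * (t + 1 / 2) := by
    have h3 : (12 * (q : ℝ) ^ 2 + 36 * q + 32) * (t + 1 / 2) ≤ (12 * (q : ℝ) ^ 2 + 36 * q + 32) * 1 := by
      gcongr
      linarith
    nlinarith
  rw [h1]
  have h4 := mul_nonneg (show (0 : ℝ) ≤ 1 / 2 - t by linarith) h2
  linarith

/-- the integer is not zero -/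
private theorem G_ne {q M : ℤ} (hq : 12 ≤ q) :
    2 * (q - 1) * M ^ 2 - (2 * q + 1) * (q + 3) * M + (3 * q ^ 2 + 9 * q + 8) ≠ 0 := by
  intro h
  set X : ℤ := 4 * (q - 1) * M - (2 * q + 1) * (q + 3) with hX
  have h1 : X ^ 2 = 4 * q ^ 4 + 4 * q ^ 3 + 13 * q ^ 2 + 50 * q + 73 := by
    rw [hX]
    linear_combination (8 * (q - 1)) * h
  have h2 : (2 * q ^ 2 + q + 3) ^ 2 < X ^ 2 := by
    rw [h1]
    nlinarith
  have h3 : X ^ 2 < (2 * q ^ 2 + q + 4) ^ 2 := by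
    rw [h1]
    nlinarith
  have h4 : 2 * q ^ 2 + q + 3 < |X| := by
    rw [← abs_of_nonneg (show (0 : ℤ) ≤ 2 * q ^ 2 + q + 3 by nlinarith)]
    exact sq_lt_sq.1 h2
  have h5 : |X| < 2 * q ^ 2 + q + 4 := by
    rw [← abs_of_nonneg (show (0 : ℤ) ≤ 2 * q ^ 2 + q + 4 by nlinarith)]
    exact sq_lt_sq.1 h3
  omega

private theorem Dq_high {q P M : ℕ} (hq : 12 ≤ q) (hP : q ≤ P) (hM : 1 ≤ M) :
    dl P ≤ |Dq q (1 / 2 + 1 / (2 * (M : ℝ)))| := by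
  have hq' : (12 : ℝ) ≤ q := by exact_mod_cast hq
  have hM' : (1 : ℝ) ≤ M := by exact_mod_cast hM
  have hP' : (q : ℝ) ≤ P := by exact_mod_cast hP
  have hMp : (0 : ℝ) < M := by linarith
  have h0 : Dq q (1 / 2 + 1 / (2 * (M : ℝ))) =
      (2 * ((q : ℝ) - 1) * M ^ 2 - (2 * q + 1) * (q + 3) * M + (3 * q ^ 2 + 9 * q + 8)) / M ^ 2 := by
    unfold Dq
    field_simp
    ring
  by_cases hY : (2 * (q : ℝ) + 1) * (q + 3) ≤ M
  · refine (dl_le_one P).trans (le_trans ?_ (le_abs_self _))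
    rw [h0, le_div_iff₀ (by positivity)]
    have h1 : (2 * (q : ℝ) + 1) * (q + 3) * M ≤ M * M := by gcongr
    nlinarith
  · push Not at hY
    have h1 := G_ne (q := (q : ℤ)) (M := (M : ℤ)) (by exact_mod_cast hq)
    have h2 : (1 : ℝ) ≤ |2 * ((q : ℝ) - 1) * M ^ 2 - (2 * q + 1) * (q + 3) * M + (3 * q ^ 2 + 9 * q + 8)| := by
      have h3 := Int.one_le_abs h1
      have h4 : ((1 : ℤ) : ℝ) ≤ ((|2 * ((q : ℤ) - 1) * (M : ℤ) ^ 2 - (2 * (q : ℤ) + 1) * ((q : ℤ) + 3) * (M : ℤ) +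
        (3 * (q : ℤ) ^ 2 + 9 * (q : ℤ) + 8)| : ℤ) : ℝ) := by exact_mod_cast h3
      push_cast at h4
      exact h4
    rw [h0, abs_div, abs_of_pos (show (0 : ℝ) < M ^ 2 by positivity)]
    calc dl P ≤ 1 / (M : ℝ) ^ 2 := by
          unfold dl
          have h5 : (M : ℝ) ≤ (2 * (P : ℝ) + 1) * (P + 3) := by
            refine hY.le.trans ?_
            gcongr
          gcongr
      _ ≤ _ := by gcongr

theorem ev_ok {q P N : ℕ} (hq : 12 ≤ q) (hP : q ≤ P) (hN : 3 ≤ N) {m s : ℝ}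
    (h : (m = 1 ∧ s = 1) ∨ (m = 2 ∧ s = 0) ∨ (m = 4 ∧ s = -2)) (i : Fin 4) :
    |ev N m s i| ≤ 2 ∧ dl P ≤ |Dq q (ev N m s i)| := by
  have hN' : (3 : ℝ) ≤ N := by exact_mod_cast hN
  have hq' : (12 : ℝ) ≤ q := by exact_mod_cast hq
  have low : ∀ t : ℝ, -2 ≤ t → t ≤ 1 / 2 → |t| ≤ 2 ∧ dl P ≤ |Dq q t| := by
    intro t h1 h2
    exact ⟨abs_le.2 ⟨h1, by linarith⟩, Dq_low hq h2⟩
  have hl : 1 ≤ N * m - 2 * s := by
    rcases h with ⟨rfl, rfl⟩ | ⟨rfl, rfl⟩ | ⟨rfl, rfl⟩ <;> linarith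
  have hlp : 0 < N * m - 2 * s := by linarith
  have e0 : ev N m s 0 = 1 := rfl
  have e1 : ev N m s 1 = 1 / 2 - s / (N * m - 2 * s) := rfl
  have e2 : ev N m s 2 = 2 / (N * m - 2 * s) := rfl
  have e3 : ev N m s 3 = -(m / (N * m - 2 * s)) := rfl
  have hone : ∀ t : ℝ, 1 ≤ |Dq q t| → dl P ≤ |Dq q t| := fun t ht => (dl_le_one P).trans ht
  have hD1 : dl P ≤ |Dq q 1| := by
    apply hone
    refine le_trans ?_ (le_abs_self _)
    unfold Dq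
    nlinarith
  have hD2 : dl P ≤ |Dq q 2| := by
    apply hone
    refine le_trans ?_ (le_abs_self _)
    unfold Dq
    nlinarith
  have hD3 : dl P ≤ |Dq q (2 / 3)| := by
    apply hone
    refine le_trans ?_ (neg_le_abs _)
    unfold Dq
    nlinarith
  fin_cases i
  · show |ev N m s 0| ≤ 2 ∧ dl P ≤ |Dq q (ev N m s 0)|
    rw [e0]
    exact ⟨by norm_num, hD1⟩
  · show |ev N m s 1| ≤ 2 ∧ dl P ≤ |Dq q (ev N m s 1)|
    rw [e1]
    rcases h with ⟨rfl, rfl⟩ | ⟨rfl, rfl⟩ | ⟨rfl, rfl⟩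
    · apply low
      · have : (1 : ℝ) / (N * 1 - 2 * 1) ≤ 1 := by
          rw [div_le_one hlp]
          linarith
        linarith
      · have : (0 : ℝ) ≤ 1 / (N * 1 - 2 * 1) := by positivity
        linarith
    · apply low
      · norm_num
      · norm_num
    · have h1 : (1 : ℝ) / 2 - -2 / (N * 4 - 2 * -2) = 1 / 2 + 1 / (2 * ((N + 1 : ℕ) : ℝ)) := by
        push_cast
        have h4 : (N : ℝ) + 1 ≠ 0 := by positivity
        have h3 : (N : ℝ) * 4 - 2 * -2 = 4 * ((N : ℝ) + 1) := by ring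
        rw [h3]
        field_simp
        ring
      rw [h1]
      refine ⟨?_, Dq_high hq hP (by omega)⟩
      have h2 : (0 : ℝ) ≤ 1 / (2 * ((N + 1 : ℕ) : ℝ)) := by positivity
      have h3 : (1 : ℝ) / (2 * ((N + 1 : ℕ) : ℝ)) ≤ 1 := by
        rw [div_le_one (by positivity)]
        push_cast
        linarith
      rw [abs_le]
      constructor <;> linarith
  · show |ev N m s 2| ≤ 2 ∧ dl P ≤ |Dq q (ev N m s 2)|
    rw [e2]
    rcases h with ⟨rfl, rfl⟩ | ⟨rfl, rfl⟩ | ⟨rfl, rfl⟩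
    · rcases Nat.lt_or_ge N 6 with h6 | h6
      · have h7 : N = 3 ∨ N = 4 ∨ N = 5 := by omega
        rcases h7 with rfl | rfl | rfl
        · have : (2 : ℝ) / (((3 : ℕ) : ℝ) * 1 - 2 * 1) = 2 := by norm_num
          rw [this]
          exact ⟨by norm_num, hD2⟩
        · have : (2 : ℝ) / (((4 : ℕ) : ℝ) * 1 - 2 * 1) = 1 := by norm_num
          rw [this]
          exact ⟨by norm_num, hD1⟩
        · have : (2 : ℝ) / (((5 : ℕ) : ℝ) * 1 - 2 * 1) = 2 / 3 := by norm_num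
          rw [this]
          exact ⟨by rw [abs_of_pos (by norm_num)]; norm_num, hD3⟩
      · have h6' : (6 : ℝ) ≤ N := by exact_mod_cast h6
        apply low
        · have : (0 : ℝ) ≤ 2 / (N * 1 - 2 * 1) := by positivity
          linarith
        · rw [div_le_div_iff₀ hlp (by norm_num)]
          linarith
    · apply low
      · have : (0 : ℝ) ≤ 2 / (N * 2 - 2 * 0) := by positivity
        linarith
      · rw [div_le_div_iff₀ hlp (by norm_num)]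
        linarith
    · apply low
      · have : (0 : ℝ) ≤ 2 / (N * 4 - 2 * -2) := by positivity
        linarith
      · rw [div_le_div_iff₀ hlp (by norm_num)]
        linarith
  · show |ev N m s 3| ≤ 2 ∧ dl P ≤ |Dq q (ev N m s 3)|
    rw [e3]
    have hm : 0 ≤ m := by
      rcases h with ⟨rfl, rfl⟩ | ⟨rfl, rfl⟩ | ⟨rfl, rfl⟩ <;> norm_num
    apply low
    · have : m / (N * m - 2 * s) ≤ 2 := by
        rw [div_le_iff₀ hlp]
        rcases h with ⟨rfl, rfl⟩ | ⟨rfl, rfl⟩ | ⟨rfl, rfl⟩ <;> linarith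
      linarith
    · have : 0 ≤ m / (N * m - 2 * s) := by positivity
      linarith

theorem dl_pos (P : ℕ) : 0 < dl P := by
  unfold dl
  positivity

end Pool.Agent.EinW
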