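import Pool.Agent.EinW.PolyG

/-!
# The gap on a power from an annihilating polynomial, uniformly
-/

namespace Pool.Agent.EinW

open Matrix Pool.Agent.EStab Pool.Agent.EinS Pool.Agent.SmIso Pool.Agent.EinU Pool.Agent.EinG
open scoped Matrix.Norms.L2Operator

section Aux

variable {L : Type*} [LieRing L] [LieAlgebra ℝ L] {J : Type*} [Fintype J] [DecidableEq J]

theorem mo_mulVec' {e : J → L} (he : IsFrame (⊤ : Submodule ℝ L) e) (T : L →ₗ[ℝ] L)
    (x : L) : mo e T *ᵥ co e x = co e (T x) := by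
  funext i
  have h1 : T x = ∑ y, Qf L x (e y) • T (e y) := by
    conv_lhs => rw [he.exp x Submodule.mem_top, map_sum]
    exact Finset.sum_congr rfl fun y _ => map_smul _ _ _
  rw [co_apply, h1, map_sum, LinearMap.sum_apply]
  unfold Matrix.mulVec dotProduct
  refine Finset.sum_congr rfl fun y _ => ?_
  rw [map_smul, LinearMap.smul_apply, smul_eq_mul, mul_comm]
  rfl

theorem mo_quad' {e : J → L} (he : IsFrame (⊤ : Submodule ℝ L) e) (T : L →ₗ[ℝ] L)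
    (x : L) : Qf L (T x) x = co e x ⬝ᵥ (mo e T *ᵥ co e x) := by
  have h1 : co e x ⬝ᵥ co e (T x) = Qf L x (T x) := (he.parseval Submodule.mem_top (T x)).symm
  rw [mo_mulVec' he, h1, Qf_symm]

theorem Qf_dot {e : J → L} (he : IsFrame (⊤ : Submodule ℝ L) e) (x : L) :
    Qf L x x = co e x ⬝ᵥ co e x := he.parseval Submodule.mem_top x

theorem mo_one' {e : J → L} (he : IsFrame (⊤ : Submodule ℝ L) e) :
    mo e (LinearMap.id : L →ₗ[ℝ] L) = 1 := by
  ext x y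
  change Qf L (e y) (e x) = _
  rw [he.orth, Matrix.one_apply]
  exact if_congr eq_comm rfl rfl

omit [Fintype J] [DecidableEq J] in
theorem mo_symm' (e : J → L) {T : L →ₗ[ℝ] L} (hT : QSym T) : (mo e T).IsSymm := by
  ext x y
  change Qf L (T (e x)) (e y) = Qf L (T (e y)) (e x)
  rw [hT, Qf_symm]

theorem TH_quad' {e : J → L} (he : IsFrame (⊤ : Submodule ℝ L) e) {T : L →ₗ[ℝ] L}
    (hT : QSym T) (x : L) : TH T x x = co e x ⬝ᵥ (Phi (CF e) (mo e T) *ᵥ co e x) := by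
  have hid : QSym (LinearMap.id : L →ₗ[ℝ] L) := fun _ _ => rfl
  have h := TH2_frame he hT hid x
  rw [mo_one' he] at h
  change _ = co e x ⬝ᵥ (UU (CF e) (mo e T) 1 *ᵥ co e x)
  rw [← h]
  unfold TH TH2
  rfl

theorem Phi_symm (C : J → Matrix J J ℝ) {α : Matrix J J ℝ} (h : α.IsSymm) :
    (Phi C α).IsSymm := UU_symm C h Matrix.isSymm_one

theorem one_norm_le : ‖(1 : Matrix J J ℝ)‖ ≤ 1 :=
  norm_le_of_quad Matrix.isSymm_one zero_le_one fun x => by
    rw [Matrix.one_mulVec, one_mul, abs_of_nonneg (dot_self_nonneg x)]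

theorem Phi_norm {e : J → L} (he : IsFrame (⊤ : Submodule ℝ L) e) {α : Matrix J J ℝ}
    (h : α.IsSymm) : ‖Phi (CF e) α‖ ≤ ‖α‖ := by
  have h1 : ∀ v, v ⬝ᵥ (UU (CF e) 1 1 *ᵥ v) ≤ v ⬝ᵥ v := fun v => by
    rw [UU_CF_one he, Matrix.one_mulVec]
  refine (norm_UU_le h1 h Matrix.isSymm_one).trans ?_
  exact mul_le_of_le_one_right (norm_nonneg _) one_norm_le

/-- The symmetric matrices. -/
def SymS (J : Type*) : Submodule ℝ (Matrix J J ℝ) where
  carrier := {α | α.IsSymm}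
  add_mem' := fun ha hb => Matrix.IsSymm.add ha hb
  zero_mem' := Matrix.isSymm_zero
  smul_mem' := fun c _ h => Matrix.IsSymm.smul h c

/-- elimination in the module -/
theorem elim_eq {V : Type*} [AddCommGroup V] [Module ℝ V] (X Y Z W U E E' F' : V)
    {a0 a1 x2 s t c Q cZ cY cX : ℝ} (h1 : -a0 • X + a1 • Y + x2 • W = E)
    (h1' : -a0 • Y + a1 • Z + x2 • U = E')
    (h2' : s • Z + t • U - c • W = F')
    (eZ : cZ = Q * (x2 * s - t * a1)) (eY : -cY = Q * (t * a0 + c * a1))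
    (eX : cX = Q * (-(c * a0))) :
    cZ • Z - cY • Y + cX • X = Q • (x2 • F' - t • E' + c • E) := by
  rw [← h1, ← h1', ← h2', sub_eq_add_neg (cZ • Z), ← neg_smul, eZ, eY, eX]
  module

end Aux

section Num

variable {q : ℕ}

theorem num_cq (hq : 2 ≤ q) : 0 < cq q ∧ cq q ≤ 1 ∧ (cq q)⁻¹ ≤ 4 := by
  have h : (2 : ℝ) ≤ q := by exact_mod_cast hq
  have h0 : 0 < cq q := by
    unfold cq
    positivity
  refine ⟨h0, ?_, ?_⟩
  · unfold cq
    rw [div_le_one (by linarith)]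
    linarith
  · unfold cq
    rw [inv_div, div_le_iff₀ (by linarith)]
    linarith

end Num

/-- bound for the mean value zero part and for the diagonal part -/
theorem forms_bound {M : Type} [LieRing M] [LieAlgebra ℝ M] [Module.Finite ℝ M] {q : ℕ}
    (hq : 2 ≤ q) {A B : M →ₗ[ℝ] M} {s : ℝ}
    (h : ∀ z, |ellQG (Sb M q) (Tb M q) (Db M q) 1 (Op q A B) z| ≤ s * Qf (Fin q → M) z z) (u : M) :
    |mf q A B u| ≤ cq q * s * Qf M u u ∧ |df q A B u| ≤ cq q * s * Qf M u u := by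
  have hq0 : 0 < q := by omega
  have hqr : (0 : ℝ) < q := by exact_mod_cast hq0
  obtain ⟨hc, -, -⟩ := num_cq hq
  have mf0 : mf q A B 0 = 0 := by
    unfold mf
    rw [(TH_zero_neg A).1, (TH_zero_neg B).1, map_zero]
    ring
  have mfn : ∀ u, mf q A B (-u) = mf q A B u := by
    intro u
    unfold mf
    rw [(TH_zero_neg A).2, (TH_zero_neg B).2, map_neg A, map_neg (Qf M (-(A u))),
      map_neg (Qf M), LinearMap.neg_apply, neg_neg]
  have df0 : df q A B 0 = 0 := by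
    unfold df
    rw [(TH_zero_neg A).1, (TH_zero_neg B).1, map_zero]
    ring
  have hQ0 : Qf M (0 : M) 0 = 0 := map_zero _
  constructor
  · have h1 := h (fun i => if i = (⟨0, by omega⟩ : Fin q) then u else
      if i = (⟨1, by omega⟩ : Fin q) then -u else 0)
    rw [ellQG_Op hq0, QF_two (by rw [mf0, mul_zero]) (by rw [df0, mul_zero])
      (fun v => by rw [mfn]) (by simp), Qf_QF hq0,
      QF_two (f := fun u => Qf M u u) (g := fun u => Qf M u u) hQ0 hQ0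
      (fun v => by
        change Qf M (-v) (-v) = Qf M v v
        rw [map_neg (Qf M (-v)), map_neg (Qf M), LinearMap.neg_apply, neg_neg]) (by simp)] at h1
    rw [abs_mul, abs_mul, abs_two, abs_of_pos (inv_pos.2 hc)] at h1
    have h2 : (cq q)⁻¹ * |mf q A B u| ≤ s * Qf M u u := by linarith
    rw [inv_mul_le_iff₀ hc] at h2
    linarith
  · have h1 := h (fun _ => u)
    rw [ellQG_Op hq0, QF_const hq0 (by rw [mf0, mul_zero]), Qf_QF hq0,
      QF_const (f := fun u => Qf M u u) (g := fun u => Qf M u u) hq0 hQ0, abs_mul, abs_mul, abs_of_pos hqr, abs_of_pos (inv_pos.2 hc)] at h1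
    have h2 : (cq q)⁻¹ * |df q A B u| ≤ s * Qf M u u := by
      have h3 : (q : ℝ) * ((cq q)⁻¹ * |df q A B u|) ≤ q * (s * Qf M u u) := by linarith
      exact le_of_mul_le_mul_left h3 hqr
    rw [inv_mul_le_iff₀ hc] at h2
    linarith

theorem ugap (P : ℕ) {δ : ℝ} (hδ : 0 < δ) : ∃ K : ℝ, 1 ≤ K ∧
    ∀ (M : Type) [LieRing M] [LieAlgebra ℝ M] [Module.Finite ℝ M], CompactSemisimple M →
      ∀ t : Fin 4 → ℝ, AnnM M t → ∀ q : ℕ, 2 ≤ q → q ≤ P →
        (∀ i, |t i| ≤ 2 ∧ δ ≤ |Dq q (t i)|) →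
          GapLG (perm1 M q) (Sb M q) (Tb M q) (Db M q) 1 K := by
  obtain ⟨K0, hK0, hpoly⟩ := poly_gap P hδ
  obtain ⟨KA, hKA⟩ : ∃ KA : ℝ, KA = K0 * (48 * ((P : ℝ) + 1) ^ 2) := ⟨_, rfl⟩
  obtain ⟨KB, hKB⟩ : ∃ KB : ℝ, KB = 4 * (KA + 2 * P * ((P : ℝ) + 1) ^ 2 * (1 + 4 * KA) + 1) :=
    ⟨_, rfl⟩
  have hP0 : (0 : ℝ) ≤ P := Nat.cast_nonneg P
  have hKA0 : 0 ≤ KA := by rw [hKA]; positivity
  have hKB0 : 0 ≤ KB := by rw [hKB]; positivity
  refine ⟨1 + KA + KB, by linarith, fun M _ _ _ hM t hann q hq hqP ht β hβ s hs z => ?_⟩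
  have hq0 : 0 < q := by omega
  have hqr : (2 : ℝ) ≤ q := by exact_mod_cast hq
  have hqPr : (q : ℝ) ≤ P := by exact_mod_cast hqP
  by_cases hM0 : ∀ u : M, u = 0
  · have hz : z = 0 := funext fun i => hM0 (z i)
    rw [hz, map_zero, map_zero, abs_zero, mul_zero]
  push Not at hM0
  obtain ⟨u0, hu0⟩ := hM0
  obtain ⟨A, B, hA, hB, rfl⟩ := cls1_op hq hβ
  have hb := forms_bound hq hs
  obtain ⟨hc0, hc1, hc4⟩ := num_cq hq
  have hs0 : 0 ≤ s := by
    have h1 := (abs_nonneg _).trans (hb u0).1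
    have h2 := Qf_pos hM hu0
    by_contra h3
    push Not at h3
    have h4 : cq q * s * Qf M u0 u0 < 0 :=
      mul_neg_of_neg_of_pos (mul_neg_of_pos_of_neg hc0 h3) h2
    linarith
  obtain ⟨n, e, he⟩ := exists_frame hM (⊤ : Submodule ℝ M)
  obtain ⟨Φ, hΦ⟩ : ∃ Φ, Φ = Phi (CF e) := ⟨_, rfl⟩
  have hα : (mo e A).IsSymm := mo_symm' e hA
  have hβ' : (mo e B).IsSymm := mo_symm' e hB
  have hΦs : ∀ {α : Matrix (Fin n) (Fin n) ℝ}, α.IsSymm → (Φ α).IsSymm := fun h => by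
    rw [hΦ]
    exact Phi_symm _ h
  have hΦn : ∀ {α : Matrix (Fin n) (Fin n) ℝ}, α.IsSymm → ‖Φ α‖ ≤ ‖α‖ := fun h => by
    rw [hΦ]
    exact Phi_norm he h
  obtain ⟨a0, ha0⟩ : ∃ x : ℝ, x = (5 * q + 3) / (4 * (q + 1)) := ⟨_, rfl⟩
  obtain ⟨a1, ha1⟩ : ∃ x : ℝ, x = (3 * q ^ 2 + 3 * q - 1) / (2 * q * (q + 1)) := ⟨_, rfl⟩
  obtain ⟨x2, hx2⟩ : ∃ x : ℝ, x = 1 / (2 * q * (q + 1) ^ 2) := ⟨_, rfl⟩
  obtain ⟨y1, hy1⟩ : ∃ x : ℝ, x = 1 / 2 * (1 - 1 / q) := ⟨_, rfl⟩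
  obtain ⟨y2, hy2⟩ : ∃ x : ℝ, x = (q + 1) / (2 * q) := ⟨_, rfl⟩
  obtain ⟨c, hc⟩ : ∃ c : ℝ, c = cq q := ⟨_, rfl⟩
  have hcq : cq q = (q + 3) / (4 * (q + 1)) := rfl
  -- numbers
  have ba0 : 0 ≤ a0 ∧ a0 ≤ 2 := by
    rw [ha0]
    refine ⟨by positivity, ?_⟩
    rw [div_le_iff₀ (by linarith)]
    linarith
  have ba1 : 0 ≤ a1 ∧ a1 ≤ 2 := by
    rw [ha1]
    refine ⟨div_nonneg (by nlinarith) (by positivity), ?_⟩
    rw [div_le_iff₀ (by positivity)]
    nlinarith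
  have bx2 : 0 < x2 ∧ x2 ≤ 1 ∧ x2⁻¹ ≤ 2 * P * ((P : ℝ) + 1) ^ 2 := by
    rw [hx2]
    refine ⟨by positivity, ?_, ?_⟩
    · rw [div_le_one (by positivity)]
      nlinarith [sq_nonneg ((q : ℝ) + 1)]
    · rw [one_div, inv_inv]
      have h1 : ((q : ℝ) + 1) ^ 2 ≤ ((P : ℝ) + 1) ^ 2 :=
        pow_le_pow_left₀ (by linarith) (by linarith) 2
      exact mul_le_mul (by linarith) h1 (by positivity) (by positivity)
  have by1 : 0 ≤ y1 ∧ y1 ≤ 1 := by
    rw [hy1]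
    have h1 : (1 : ℝ) / q ≤ 1 := by
      rw [div_le_one (by linarith)]
      linarith
    have h2 : (0 : ℝ) ≤ 1 / q := by positivity
    constructor <;> linarith
  have by2 : 0 ≤ y2 ∧ y2 ≤ 1 := by
    rw [hy2]
    refine ⟨by positivity, ?_⟩
    rw [div_le_one (by linarith)]
    linarith
  rw [← hc] at hc0 hc1 hc4 hb
  -- the two equations
  obtain ⟨E1, hE1⟩ : ∃ E : Matrix (Fin n) (Fin n) ℝ,
      -a0 • mo e A + a1 • Φ (mo e A) + x2 • Φ (mo e B) = E := ⟨_, rfl⟩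
  obtain ⟨E2, hE2⟩ : ∃ E : Matrix (Fin n) (Fin n) ℝ,
      y1 • Φ (mo e A) + y2 • Φ (mo e B) - c • mo e B = E := ⟨_, rfl⟩
  have hE1s : E1.IsSymm := by
    rw [← hE1]
    exact ((hα.smul _).add ((hΦs hα).smul _)).add ((hΦs hβ').smul _)
  have hE2s : E2.IsSymm := by
    rw [← hE2]
    exact (((hΦs hα).smul _).add ((hΦs hβ').smul _)).sub (hβ'.smul _)
  have hcs : 0 ≤ c * s := mul_nonneg hc0.le hs0
  have hcs1 : c * s ≤ s := mul_le_of_le_one_left hs0 hc1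
  have nE1 : ‖E1‖ ≤ s := by
    refine (norm_le_of_quad hE1s hcs fun v => ?_).trans hcs1
    have hv : co e (∑ i, v i • e i) = v := co_comb he v
    have h3 := (hb (∑ i, v i • e i)).1
    unfold mf at h3
    rw [mo_quad' he, TH_quad' he hA, TH_quad' he hB, Qf_dot he, hv, ← ha0, ← ha1, ← hx2,
      ← hΦ] at h3
    rw [← hE1, Matrix.add_mulVec, Matrix.add_mulVec, dotProduct_add, dotProduct_add,
      Matrix.smul_mulVec, Matrix.smul_mulVec, Matrix.smul_mulVec, dotProduct_smul,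
      dotProduct_smul, dotProduct_smul, smul_eq_mul, smul_eq_mul, smul_eq_mul]
    exact h3
  have nE2 : ‖E2‖ ≤ s := by
    refine (norm_le_of_quad hE2s hcs fun v => ?_).trans hcs1
    have hv : co e (∑ i, v i • e i) = v := co_comb he v
    have h3 := (hb (∑ i, v i • e i)).2
    unfold df at h3
    rw [mo_quad' he, TH_quad' he hA, TH_quad' he hB, Qf_dot he, hv, ← hy1, ← hy2, ← hc,
      ← hΦ] at h3
    rw [← hE2, Matrix.sub_mulVec, Matrix.add_mulVec, dotProduct_sub, dotProduct_add,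
      Matrix.smul_mulVec, Matrix.smul_mulVec, Matrix.smul_mulVec, dotProduct_smul,
      dotProduct_smul, dotProduct_smul, smul_eq_mul, smul_eq_mul, smul_eq_mul]
    exact h3
  have E1' : -a0 • Φ (mo e A) + a1 • Φ (Φ (mo e A)) + x2 • Φ (Φ (mo e B)) = Φ E1 := by
    rw [← hE1, map_add, map_add, map_smul, map_smul, map_smul]
  have E2' : y1 • Φ (Φ (mo e A)) + y2 • Φ (Φ (mo e B)) - c • Φ (mo e B) = Φ E2 := by
    rw [← hE2, map_sub, map_add, map_smul, map_smul, map_smul]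
  have hD : Dop Φ q (mo e A) =
      (-16 * ((q : ℝ) + 1) ^ 2) • (x2 • Φ E2 - y2 • Φ E1 + c • E1) := by
    unfold Dop
    refine elim_eq (mo e A) (Φ (mo e A)) (Φ (Φ (mo e A))) (Φ (mo e B)) (Φ (Φ (mo e B))) _ _ _
      hE1 E1' E2' ?_ ?_ ?_
    · rw [hx2, hy1, hy2, ha1]
      field_simp
      ring
    · rw [hy2, ha0, ha1, hc, hcq]
      field_simp
      ring
    · rw [hc, ha0, hcq]
      field_simp
      ring
  have nD : ‖Dop Φ q (mo e A)‖ ≤ 48 * ((P : ℝ) + 1) ^ 2 * s := by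
    have h1 : ‖x2 • Φ E2 - y2 • Φ E1 + c • E1‖ ≤ 3 * s := by
      have g1 : ‖x2 • Φ E2‖ ≤ s := by
        rw [norm_smul, Real.norm_eq_abs, abs_of_pos bx2.1]
        exact (mul_le_of_le_one_left (norm_nonneg _) bx2.2.1).trans ((hΦn hE2s).trans nE2)
      have g2 : ‖y2 • Φ E1‖ ≤ s := by
        rw [norm_smul, Real.norm_eq_abs, abs_of_nonneg by2.1]
        exact (mul_le_of_le_one_left (norm_nonneg _) by2.2).trans ((hΦn hE1s).trans nE1)
      have g3 : ‖c • E1‖ ≤ s := by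
        rw [norm_smul, Real.norm_eq_abs, abs_of_pos hc0]
        exact (mul_le_of_le_one_left (norm_nonneg _) hc1).trans nE1
      have g4 := norm_add_le (x2 • Φ E2 - y2 • Φ E1) (c • E1)
      have g5 := norm_sub_le (x2 • Φ E2) (y2 • Φ E1)
      linarith
    have h2 : ((q : ℝ) + 1) ^ 2 ≤ ((P : ℝ) + 1) ^ 2 :=
      pow_le_pow_left₀ (by linarith) (by linarith) 2
    have h3 : ‖(-16 * ((q : ℝ) + 1) ^ 2)‖ = 16 * ((q : ℝ) + 1) ^ 2 := by
      rw [Real.norm_eq_abs, neg_mul, abs_neg, abs_of_nonneg (by positivity)]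
    rw [hD, norm_smul, h3]
    calc 16 * ((q : ℝ) + 1) ^ 2 * ‖x2 • Φ E2 - y2 • Φ E1 + c • E1‖
        ≤ 16 * ((P : ℝ) + 1) ^ 2 * (3 * s) :=
          mul_le_mul (by linarith) h1 (norm_nonneg _) (by positivity)
      _ = _ := by ring
  have nA : ‖mo e A‖ ≤ KA * s := by
    have h1 := hpoly (Matrix (Fin n) (Fin n) ℝ) (SymS (Fin n)) Φ (fun v hv => hΦs hv)
      (fun v hv => hΦn hv) q hqP t ht (mo e A) hα (by
        rw [hΦ]
        exact hann n e he _ hα)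
    refine h1.trans ?_
    rw [hKA]
    calc K0 * ‖Dop Φ q (mo e A)‖ ≤ K0 * (48 * ((P : ℝ) + 1) ^ 2 * s) :=
          mul_le_mul_of_nonneg_left nD (by linarith)
      _ = _ := by ring
  have nPB : ‖Φ (mo e B)‖ ≤ 2 * P * ((P : ℝ) + 1) ^ 2 * ((1 + 4 * KA) * s) := by
    have h1 : Φ (mo e B) = x2⁻¹ • (E1 + a0 • mo e A - a1 • Φ (mo e A)) := by
      rw [← hE1]
      have h2 : -a0 • mo e A + a1 • Φ (mo e A) + x2 • Φ (mo e B) + a0 • mo e A -
          a1 • Φ (mo e A) = x2 • Φ (mo e B) := by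
        module
      rw [h2, smul_smul, inv_mul_cancel₀ bx2.1.ne', one_smul]
    have h2 : ‖E1 + a0 • mo e A - a1 • Φ (mo e A)‖ ≤ (1 + 4 * KA) * s := by
      have g1 : ‖a0 • mo e A‖ ≤ 2 * (KA * s) := by
        rw [norm_smul, Real.norm_eq_abs, abs_of_nonneg ba0.1]
        exact mul_le_mul ba0.2 nA (norm_nonneg _) (by norm_num)
      have g2 : ‖a1 • Φ (mo e A)‖ ≤ 2 * (KA * s) := by
        rw [norm_smul, Real.norm_eq_abs, abs_of_nonneg ba1.1]
        exact mul_le_mul ba1.2 ((hΦn hα).trans nA) (norm_nonneg _) (by norm_num)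
      have g3 := norm_sub_le (E1 + a0 • mo e A) (a1 • Φ (mo e A))
      have g4 := norm_add_le E1 (a0 • mo e A)
      linarith
    rw [h1, norm_smul, Real.norm_eq_abs, abs_of_pos (inv_pos.2 bx2.1)]
    exact mul_le_mul bx2.2.2 h2 (norm_nonneg _) (by positivity)
  have nB : ‖mo e B‖ ≤ KB * s := by
    have h1 : mo e B = c⁻¹ • (y1 • Φ (mo e A) + y2 • Φ (mo e B) - E2) := by
      rw [← hE2]
      have h2 : y1 • Φ (mo e A) + y2 • Φ (mo e B) -
          (y1 • Φ (mo e A) + y2 • Φ (mo e B) - c • mo e B) = c • mo e B := by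
        module
      rw [h2, smul_smul, inv_mul_cancel₀ hc0.ne', one_smul]
    have g1 : ‖y1 • Φ (mo e A)‖ ≤ KA * s := by
      rw [norm_smul, Real.norm_eq_abs, abs_of_nonneg by1.1]
      exact (mul_le_of_le_one_left (norm_nonneg _) by1.2).trans ((hΦn hα).trans nA)
    have g2 : ‖y2 • Φ (mo e B)‖ ≤ 2 * P * ((P : ℝ) + 1) ^ 2 * ((1 + 4 * KA) * s) := by
      rw [norm_smul, Real.norm_eq_abs, abs_of_nonneg by2.1]
      exact (mul_le_of_le_one_left (norm_nonneg _) by2.2).trans nPB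
    have g3 := norm_sub_le (y1 • Φ (mo e A) + y2 • Φ (mo e B)) E2
    have g4 := norm_add_le (y1 • Φ (mo e A)) (y2 • Φ (mo e B))
    have g5 : ‖y1 • Φ (mo e A) + y2 • Φ (mo e B) - E2‖ ≤
        (KA + 2 * P * ((P : ℝ) + 1) ^ 2 * (1 + 4 * KA) + 1) * s := by
      linarith
    calc ‖mo e B‖ = c⁻¹ * ‖y1 • Φ (mo e A) + y2 • Φ (mo e B) - E2‖ := by
          conv_lhs => rw [h1]
          rw [norm_smul, Real.norm_eq_abs, abs_of_pos (inv_pos.2 hc0)]
      _ ≤ 4 * ((KA + 2 * P * ((P : ℝ) + 1) ^ 2 * (1 + 4 * KA) + 1) * s) :=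
          mul_le_mul hc4 g5 (norm_nonneg _) (by norm_num)
      _ = KB * s := by rw [hKB]; ring
  -- conclusion
  have fA : ∀ u, |Qf M (A u) u| ≤ (1 + KA + KB) * s * Qf M u u := by
    intro u
    rw [mo_quad' he, Qf_dot he]
    refine (quad_le_norm _ _).trans (mul_le_mul_of_nonneg_right ?_ (dot_self_nonneg _))
    have h1 : 0 ≤ KB * s := mul_nonneg hKB0 hs0
    linarith
  have fB : ∀ u, |Qf M (B u) u| ≤ (1 + KA + KB) * s * Qf M u u := by
    intro u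
    rw [mo_quad' he, Qf_dot he]
    refine (quad_le_norm _ _).trans (mul_le_mul_of_nonneg_right ?_ (dot_self_nonneg _))
    have h1 : 0 ≤ KA * s := mul_nonneg hKA0 hs0
    linarith
  have h5 : Qf (Fin q → M) (Op q A B z) z =
      QF q (fun u => Qf M (A u) u) (fun u => Qf M (B u) u) z := by
    have h := Qf_Op_Op hq0 A B (sc M 1) (sc M 1) z
    rw [Op_one] at h
    rw [h]
    unfold sc
    congr 1 <;> funext u <;> rw [one_smul, LinearMap.id_apply]
  rw [h5, Qf_QF hq0, QF_smul]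
  rw [abs_le]
  constructor
  · have h6 : -(QF q (fun u => (1 + KA + KB) * s * Qf M u u)
        (fun u => (1 + KA + KB) * s * Qf M u u) z) =
        QF q (fun u => -1 * ((1 + KA + KB) * s * Qf M u u))
        (fun u => -1 * ((1 + KA + KB) * s * Qf M u u)) z := by
      rw [← QF_smul (-1) (fun u => (1 + KA + KB) * s * Qf M u u)
        (fun u => (1 + KA + KB) * s * Qf M u u), neg_one_mul]
    rw [h6]
    exact QF_le (fun u => by linarith [(abs_le.1 (fA u)).1])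
      (fun u => by linarith [(abs_le.1 (fB u)).1]) z
  · exact QF_le (fun u => (abs_le.1 (fA u)).2) (fun u => (abs_le.1 (fB u)).2) z

end Pool.Agent.EinW
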